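import Mathlib
import Pool.Agent.H373R2.T7.Lin

/-! Discrete Fourier expansion of a `q`-periodic function, and its dyadic shells. -/

set_option autoImplicit false

namespace Pool.Agent.K3h35.MP

open Finset
open Pool.Agent.H807R2.Dav
open Pool.Agent.H373R2.T7 (ee_conj')

/-- the frequencies: a complete residue system modulo `q` of integers `h` with `2 |h| ≤ q` -/
noncomputable def SS (q : ℕ) : Finset ℤ := Ioc (-((q - q / 2 : ℕ) : ℤ)) ((q / 2 : ℕ) : ℤ)

lemma SS_abs {q : ℕ} (hq : 1 ≤ q) {h : ℤ} (hh : h ∈ SS q) : 2 * h.natAbs ≤ q := by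
  unfold SS at hh
  rw [mem_Ioc] at hh
  omega

lemma SS_zero {q : ℕ} (hq : 1 ≤ q) : (0 : ℤ) ∈ SS q := by
  unfold SS
  rw [mem_Ioc]
  omega

lemma ee_mul_nat (x : ℝ) (n : ℕ) : ee ((n : ℝ) * x) = ee x ^ n := ee_pow x n

lemma orth {q : ℕ} (hq : 1 ≤ q) (r : ℤ) :
    ∑ h ∈ SS q, ee ((h : ℝ) * ((r : ℝ) / q)) = if (q : ℤ) ∣ r then (q : ℂ) else 0 := by
  have hq0 : (0 : ℝ) < q := by exact_mod_cast hq
  set a : ℤ := -((q - q / 2 : ℕ) : ℤ) + 1 with ha
  have e1 : SS q = (range q).image (fun i : ℕ => a + (i : ℤ)) := by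
    ext h
    unfold SS
    rw [mem_Ioc, mem_image]
    constructor
    · intro hh
      exact ⟨(h - a).toNat, mem_range.2 (by omega), by omega⟩
    · rintro ⟨i, hi, rfl⟩
      rw [mem_range] at hi
      omega
  rw [e1, sum_image (by intro x _ y _ h; simpa using h)]
  have e2 : ∀ i ∈ range q, ee (((a + (i : ℤ) : ℤ) : ℝ) * ((r : ℝ) / q)) = ee ((a : ℝ) * ((r : ℝ) / q)) * ee ((r : ℝ) / q) ^ i := by
    intro i _
    rw [← ee_pow, ← ee_add]
    congr 1
    push_cast
    ring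
  rw [sum_congr rfl e2, ← mul_sum]
  split_ifs with hd
  · obtain ⟨c, rfl⟩ := hd
    have h1 : (((q : ℤ) * c : ℤ) : ℝ) / q = (c : ℝ) := by
      push_cast
      field_simp
    rw [h1, ee_int, show (a : ℝ) * (c : ℝ) = ((a * c : ℤ) : ℝ) by push_cast; ring, ee_int]
    simp
  · have hne : ee ((r : ℝ) / q) ≠ 1 := by
      intro h
      apply hd
      rw [ee_eq', Complex.exp_eq_one_iff] at h
      obtain ⟨n, hn⟩ := h
      have h2 : ((2 * Real.pi * ((r : ℝ) / q) : ℝ) : ℂ) = ((n : ℝ) * (2 * Real.pi) : ℝ) := by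
        have hI : Complex.I ≠ 0 := Complex.I_ne_zero
        apply mul_left_cancel₀ hI
        rw [hn]
        push_cast
        ring
      have h3 : 2 * Real.pi * ((r : ℝ) / q) = (n : ℝ) * (2 * Real.pi) := by exact_mod_cast h2
      have h4 : (r : ℝ) / q = n := by
        have := Real.pi_pos
        have h5 : (2 * Real.pi) * ((r : ℝ) / q) = (2 * Real.pi) * n := by linarith
        exact mul_left_cancel₀ (by positivity) h5
      have h5 : (r : ℝ) = n * q := by
        rw [div_eq_iff hq0.ne'] at h4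
        exact h4
      refine ⟨n, ?_⟩
      have : r = n * q := by exact_mod_cast h5
      rw [this]; ring
    have h1 : ∑ i ∈ range q, ee ((r : ℝ) / q) ^ i = 0 := by
      have h2 := geom_sum_eq hne q
      rw [h2]
      have h3 : ee ((r : ℝ) / q) ^ q = 1 := by
        rw [← ee_pow]
        have : (q : ℝ) * ((r : ℝ) / q) = ((r : ℤ) : ℝ) := by field_simp
        rw [this, ee_int]
      rw [h3, sub_self, zero_div]
    rw [h1, mul_zero]

/-- the Fourier coefficient -/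
noncomputable def cf (q : ℕ) (g : ℕ → ℝ) (h : ℤ) : ℂ :=
  (1 / (q : ℂ)) * ∑ n ∈ range q, (g n : ℂ) * ee ((h : ℝ) * (-(n : ℝ) / q))

lemma inversion {q : ℕ} (hq : 1 ≤ q) {g : ℕ → ℝ} (hg : ∀ n, g (n + q) = g n) (n : ℕ) :
    (g n : ℂ) = ∑ h ∈ SS q, cf q g h * ee ((n : ℝ) * ((h : ℝ) / q)) := by
  have hq0 : (0 : ℝ) < q := by exact_mod_cast hq
  have hqc : (q : ℂ) ≠ 0 := by exact_mod_cast (by omega : q ≠ 0)
  unfold cf
  have e1 : ∀ h ∈ SS q, (1 / (q : ℂ)) * (∑ m ∈ range q, (g m : ℂ) * ee ((h : ℝ) * (-(m : ℝ) / q))) *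
      ee ((n : ℝ) * ((h : ℝ) / q)) = (1 / (q : ℂ)) * ∑ m ∈ range q, (g m : ℂ) *
        ee ((h : ℝ) * ((((n : ℤ) - m : ℤ) : ℝ) / q)) := by
    intro h _
    rw [mul_assoc, sum_mul]
    congr 1
    apply sum_congr rfl
    intro m _
    rw [mul_assoc, ← ee_add]
    congr 2
    push_cast
    ring
  rw [sum_congr rfl e1, ← mul_sum, sum_comm]
  have e2 : ∀ m ∈ range q, ∑ h ∈ SS q, (g m : ℂ) * ee ((h : ℝ) * ((((n : ℤ) - m : ℤ) : ℝ) / q)) =
      if m = n % q then (q : ℂ) * g n else 0 := by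
    intro m hm
    rw [mem_range] at hm
    rw [← mul_sum, orth hq]
    by_cases h1 : m = n % q
    · rw [if_pos h1, if_pos]
      · have h2 : g m = g n := by
          rw [h1]
          have hper : Function.Periodic g q := hg
          exact hper.map_mod_nat n
        rw [h2]; ring
      · rw [h1]
        have := Int.emod_add_mul_ediv (n : ℤ) q
        refine ⟨(n : ℤ) / q, ?_⟩
        push_cast
        linarith
    · rw [if_neg h1, if_neg, mul_zero]
      intro h2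
      apply h1
      have h3 : (n : ℤ) % q = (m : ℤ) % q := (Int.modEq_iff_dvd.2 h2).symm
      have h4 : ((n % q : ℕ) : ℤ) = ((m % q : ℕ) : ℤ) := by push_cast; exact h3
      have h5 : n % q = m % q := by exact_mod_cast h4
      rw [Nat.mod_eq_of_lt hm] at h5
      exact h5.symm
  rw [sum_congr rfl e2, sum_ite_eq' (range q) (n % q), if_pos (mem_range.2 (Nat.mod_lt _ (by omega)))]
  field_simp

lemma cf_conj {q : ℕ} (g : ℕ → ℝ) (h : ℤ) : (starRingEnd ℂ) (cf q g h) =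
    (1 / (q : ℂ)) * ∑ n ∈ range q, (g n : ℂ) * ee ((n : ℝ) * ((h : ℝ) / q)) := by
  unfold cf
  rw [map_mul, map_sum]
  congr 1
  · simp
  · apply sum_congr rfl
    intro n _
    rw [map_mul, ee_conj', Complex.conj_ofReal]
    congr 2
    ring

lemma parseval {q : ℕ} (hq : 1 ≤ q) {g : ℕ → ℝ} (hg : ∀ n, g (n + q) = g n) :
    ∑ h ∈ SS q, ‖cf q g h‖ ^ 2 = (1 / (q : ℝ)) * ∑ n ∈ range q, (g n) ^ 2 := by
  have e0 : ((∑ h ∈ SS q, ‖cf q g h‖ ^ 2 : ℝ) : ℂ) = (((1 / (q : ℝ)) * ∑ n ∈ range q, (g n) ^ 2 : ℝ) : ℂ) := by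
    push_cast
    have e1 : ∀ h ∈ SS q, ((‖cf q g h‖ : ℂ)) ^ 2 = (1 / (q : ℂ)) * ∑ n ∈ range q, (g n : ℂ) *
        (cf q g h * ee ((n : ℝ) * ((h : ℝ) / q))) := by
      intro h _
      rw [← Complex.mul_conj', cf_conj, mul_left_comm, mul_sum]
      congr 1
      apply sum_congr rfl
      intro n _
      ring
    rw [sum_congr rfl e1, ← mul_sum, sum_comm]
    congr 1
    apply sum_congr rfl
    intro n _
    rw [← mul_sum, ← inversion hq hg n]
    ring
  exact_mod_cast e0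

lemma periodic_sum {q : ℕ} {G : ℕ → ℂ} (hG : ∀ n, G (n + q) = G n) (t : ℕ) :
    ∑ n ∈ range q, G (n + t) = ∑ n ∈ range q, G n := by
  induction t with
  | zero => rfl
  | succ t ih =>
    rw [← ih]
    have h1 := Finset.sum_range_succ (fun n => G (n + t)) q
    have h2 := Finset.sum_range_succ' (fun n => G (n + t)) q
    rw [h1] at h2
    have h3 : G (q + t) = G (0 + t) := by rw [add_comm q t, hG, zero_add]
    rw [h3] at h2
    have h4 := add_right_cancel h2
    rw [h4]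
    apply sum_congr rfl
    intro n _
    congr 1
    ring

lemma cf_shift {q : ℕ} (hq : 1 ≤ q) {g : ℕ → ℝ} (hg : ∀ n, g (n + q) = g n) (t : ℕ) (h : ℤ) :
    cf q (fun n => g (n + t) - g n) h = cf q g h * (ee ((h : ℝ) * ((t : ℝ) / q)) - 1) := by
  have hq0 : (0 : ℝ) < q := by exact_mod_cast hq
  have e1 : cf q (fun n => g (n + t)) h = cf q g h * ee ((h : ℝ) * ((t : ℝ) / q)) := by
    unfold cf
    rw [mul_assoc, sum_mul]
    congr 1
    set G : ℕ → ℂ := fun n => (g n : ℂ) * ee ((h : ℝ) * (-(n : ℝ) / q)) * ee ((h : ℝ) * ((t : ℝ) / q)) with hGd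
    have hG : ∀ n, G (n + q) = G n := by
      intro n
      simp only [hGd]
      rw [hg]
      have h2 : (h : ℝ) * (-((n + q : ℕ) : ℝ) / q) = (h : ℝ) * (-(n : ℝ) / q) + ((-h : ℤ) : ℝ) := by
        push_cast
        field_simp
        ring
      rw [h2, ee_add_int]
    rw [← periodic_sum hG t]
    apply sum_congr rfl
    intro n _
    simp only [hGd]
    rw [mul_assoc, ← ee_add]
    congr 2
    push_cast
    ring
  have e2 : cf q (fun n => g (n + t) - g n) h = cf q (fun n => g (n + t)) h - cf q g h := by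
    unfold cf
    rw [← mul_sub, ← sum_sub_distrib]
    congr 1
    apply sum_congr rfl
    intro n _
    push_cast
    ring
  rw [e2, e1]
  ring

/-- the dyadic shells of frequencies -/
noncomputable def Fs (q s : ℕ) : Finset ℤ := (SS q).filter (fun h => 2 ^ s ≤ h.natAbs ∧ h.natAbs < 2 ^ (s + 1))

/-- mean square over a shell, from the number of boundary points -/
lemma shell {q : ℕ} (hq : 1 ≤ q) {g : ℕ → ℝ} (hg : ∀ n, g (n + q) = g n) {P : ℝ}
    (hP : ∀ t : ℕ, 1 ≤ t → ∑ n ∈ range q, (g (n + t) - g n) ^ 2 ≤ 2 * P * t) (hP0 : 0 ≤ P) (s : ℕ) :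
    ∑ h ∈ Fs q s, ‖cf q g h‖ ^ 2 ≤ 4 * P / 2 ^ s := by
  have hq0 : (0 : ℝ) < q := by exact_mod_cast hq
  have h2s : (0 : ℝ) < 2 ^ s := by positivity
  by_cases hempty : q < 2 ^ (s + 1)
  · have : Fs q s = ∅ := by
      unfold Fs
      rw [filter_eq_empty_iff]
      intro h hh ⟨h1, h2⟩
      have h3 := SS_abs hq hh
      rw [pow_succ] at hempty
      omega
    rw [this, sum_empty]
    positivity
  push Not at hempty
  -- choice of the shift
  obtain ⟨t, ht1, ht2, ht3, ht4⟩ : ∃ t : ℕ, 1 ≤ t ∧ t * 2 ^ (s + 1) ≤ q ∧ q ≤ 8 * (t * 2 ^ s) ∧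
      (∀ a : ℕ, 2 * a ≤ q → a < 2 ^ (s + 1) → 2 * (a * t) ≤ q) := by
    rcases Nat.lt_or_ge q (2 ^ (s + 2)) with h | h
    · refine ⟨1, le_rfl, by omega, ?_, fun a ha _ => by omega⟩
      rw [pow_succ, pow_succ] at h
      omega
    · have h1 : 1 ≤ q / 2 ^ (s + 2) := Nat.div_pos h (by positivity)
      have h2 : q / 2 ^ (s + 2) * 2 ^ (s + 2) ≤ q := Nat.div_mul_le_self _ _
      have h3 : q < (q / 2 ^ (s + 2) + 1) * 2 ^ (s + 2) := by
        have := Nat.lt_div_mul_add (a := q) (b := 2 ^ (s + 2)) (by positivity)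
        nlinarith
      generalize q / 2 ^ (s + 2) = t at h1 h2 h3
      have e : (2 : ℕ) ^ (s + 2) = 4 * 2 ^ s := by rw [pow_add]; ring
      have e' : (2 : ℕ) ^ (s + 1) = 2 * 2 ^ s := by rw [pow_add]; ring
      rw [e] at h2 h3
      refine ⟨t, h1, ?_, ?_, ?_⟩
      · rw [e']; nlinarith
      · nlinarith [Nat.pos_of_ne_zero (show (2 : ℕ) ^ s ≠ 0 by positivity)]
      · intro a _ ha
        rw [e'] at ha
        nlinarith
  have key : ∀ h ∈ Fs q s, (1 / 4 : ℝ) * ‖cf q g h‖ ^ 2 ≤ ‖cf q (fun n => g (n + t) - g n) h‖ ^ 2 := by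
    intro h hh
    unfold Fs at hh
    rw [mem_filter] at hh
    obtain ⟨hhS, hh1, hh2⟩ := hh
    have habs := SS_abs hq hhS
    rw [cf_shift hq hg, norm_mul, mul_pow]
    have hdd : (1 / 2 : ℝ) ≤ ‖ee ((h : ℝ) * ((t : ℝ) / q)) - 1‖ := by
      rw [norm_sub_rev]
      change (1 / 2 : ℝ) ≤ dd ((h : ℝ) * ((t : ℝ) / q))
      have e1 : dd ((h : ℝ) * ((t : ℝ) / q)) = dd (((h.natAbs * t : ℕ) : ℝ) / q) := by
        rcases Int.natAbs_eq h with h' | h'
        · congr 1
          rw [h']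
          push_cast
          simp
          ring
        · rw [← dd_neg]
          congr 1
          conv_lhs => rw [h']
          push_cast
          simp
          ring
      rw [e1]
      have hx0 : (1 / 8 : ℝ) ≤ ((h.natAbs * t : ℕ) : ℝ) / q := by
        rw [div_le_div_iff₀ (by norm_num) hq0, one_mul]
        have : q ≤ h.natAbs * t * 8 := by nlinarith
        exact_mod_cast this
      have hx1 : ((h.natAbs * t : ℕ) : ℝ) / q ≤ 1 / 2 := by
        rw [div_le_div_iff₀ hq0 (by norm_num), one_mul]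
        have := ht4 h.natAbs habs hh2
        have h3 : h.natAbs * t * 2 ≤ q := by omega
        exact_mod_cast h3
      have h4 := dd_ge (t := ((h.natAbs * t : ℕ) : ℝ) / q) (by linarith) (by linarith)
      have h5 : (1 / 8 : ℝ) ≤ min (((h.natAbs * t : ℕ) : ℝ) / q) (1 - ((h.natAbs * t : ℕ) : ℝ) / q) := by
        apply le_min hx0
        linarith
      linarith
    have h6 : (1 / 4 : ℝ) ≤ ‖ee ((h : ℝ) * ((t : ℝ) / q)) - 1‖ ^ 2 := by nlinarith
    have h7 : 0 ≤ ‖cf q g h‖ ^ 2 := by positivity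
    nlinarith
  have hper : ∀ n, (fun n => g (n + t) - g n) (n + q) = (fun n => g (n + t) - g n) n := by
    intro n
    simp only
    rw [show n + q + t = (n + t) + q by ring, hg, hg]
  have h1 : ∑ h ∈ Fs q s, (1 / 4 : ℝ) * ‖cf q g h‖ ^ 2 ≤ (1 / (q : ℝ)) * (2 * P * t) := by
    calc _ ≤ ∑ h ∈ Fs q s, ‖cf q (fun n => g (n + t) - g n) h‖ ^ 2 := sum_le_sum key
      _ ≤ ∑ h ∈ SS q, ‖cf q (fun n => g (n + t) - g n) h‖ ^ 2 :=
          sum_le_sum_of_subset_of_nonneg (filter_subset _ _) (fun _ _ _ => by positivity)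
      _ = _ := parseval hq hper
      _ ≤ _ := mul_le_mul_of_nonneg_left (hP t ht1) (by positivity)
  rw [← mul_sum] at h1
  have h3 : (1 / (q : ℝ)) * (2 * P * t) ≤ P / 2 ^ s := by
    rw [one_div_mul_eq_div, div_le_div_iff₀ hq0 h2s]
    have h4 : (t : ℝ) * 2 ^ (s + 1) ≤ q := by exact_mod_cast ht2
    rw [pow_succ] at h4
    nlinarith
  have h5 : (∑ h ∈ Fs q s, ‖cf q g h‖ ^ 2) ≤ 4 * (P / 2 ^ s) := by linarith
  calc _ ≤ _ := h5
    _ = _ := by ring

end Pool.Agent.K3h35.MP
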