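import Mathlib
import Pool.Agent.K3h35.MP.A

/-! Bilinear sums with a sum of additive characters of small integral frequencies modulo `q`. -/

set_option autoImplicit false

namespace Pool.Agent.K3h35.MP

open Finset
open Pool.Agent.H807R2.Dav
open Pool.Agent.H373R2.T7 (ee_conj' cs_norm)

/-- a finite sum of characters -/
noncomputable def EF (F : Finset ℤ) (c : ℤ → ℂ) (q n : ℕ) : ℂ := ∑ h ∈ F, c h * ee ((n : ℝ) * ((h : ℝ) / q))

lemma fiber_card {F : Finset ℤ} {Z : ℕ} (hF : ∀ h ∈ F, h ≠ 0 ∧ h.natAbs ≤ Z) {L : ℕ} {T : ℝ} (hT0 : 0 ≤ T)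
    (hT : ∀ k : ℕ, 1 ≤ k → k ≤ 2 * Z * L → (k.divisors.card : ℝ) ≤ T) (k : ℤ) :
    ((((F ×ˢ Ioc L (2 * L)).filter (fun p => p.1 * (p.2 : ℤ) = k)).card : ℕ) : ℝ) ≤ T := by
  classical
  rcases ((F ×ˢ Ioc L (2 * L)).filter (fun p => p.1 * (p.2 : ℤ) = k)).eq_empty_or_nonempty with h0 | ⟨p0, hp0⟩
  · rw [h0]; simpa using hT0
  rw [mem_filter, mem_product, mem_Ioc] at hp0
  obtain ⟨⟨hp1, hp2, hp3⟩, hp4⟩ := hp0
  obtain ⟨hne, hZ⟩ := hF _ hp1
  have hk0 : k ≠ 0 := by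
    rw [← hp4]
    apply mul_ne_zero hne
    omega
  have hkZ : k.natAbs ≤ 2 * Z * L := by
    rw [← hp4, Int.natAbs_mul, Int.natAbs_natCast]
    calc p0.1.natAbs * p0.2 ≤ Z * (2 * L) := Nat.mul_le_mul hZ hp3
      _ = _ := by ring
  refine le_trans ?_ (hT k.natAbs (by omega) hkZ)
  have h1 : ((F ×ˢ Ioc L (2 * L)).filter (fun p => p.1 * (p.2 : ℤ) = k)).card ≤ k.natAbs.divisors.card := by
    apply card_le_card_of_injOn (fun p => p.2)
    · intro p hp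
      rw [mem_coe, mem_filter] at hp
      rw [mem_coe, Nat.mem_divisors]
      refine ⟨?_, by omega⟩
      rw [← hp.2, Int.natAbs_mul, Int.natAbs_natCast]
      exact Dvd.intro_left _ rfl
    · intro p hp p' hp' h
      rw [mem_coe, mem_filter, mem_product, mem_Ioc] at hp hp'
      have h2 : p.2 = p'.2 := h
      have h3 : p.1 * (p.2 : ℤ) = p'.1 * (p.2 : ℤ) := by rw [hp.2, h2, hp'.2]
      have h4 : ((p.2 : ℕ) : ℤ) ≠ 0 := by omega
      have h5 : p.1 = p'.1 := mul_right_cancel₀ h4 h3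
      exact Prod.ext h5 h2
  exact_mod_cast h1

lemma KK_sum {q : ℕ} (hq : 1 ≤ q) {F : Finset ℤ} {Z : ℕ} (hF : ∀ h ∈ F, h ≠ 0 ∧ h.natAbs ≤ Z) (M L : ℕ) {T : ℝ}
    (hT0 : 0 ≤ T) (hT : ∀ k : ℕ, 1 ≤ k → k ≤ 2 * Z * L → (k.divisors.card : ℝ) ≤ T) (x : ℝ) :
    ∑ p ∈ F ×ˢ Ioc L (2 * L), KK M (x - ((p.1 * (p.2 : ℤ) : ℤ) : ℝ) / q) ≤
      T * ((((4 * Z * L + 1 : ℕ) : ℝ) / q + 1) * (39 * M + 3 * q * (1 + Real.log q))) := by
  classical
  have hq0 : (0 : ℝ) < q := by exact_mod_cast hq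
  set W : ℕ := 2 * Z * L with hW
  have hmaps : ∀ p ∈ F ×ˢ Ioc L (2 * L), p.1 * (p.2 : ℤ) ∈ Icc (-(W : ℤ)) W := by
    intro p hp
    rw [mem_product, mem_Ioc] at hp
    have h1 := (hF _ hp.1).2
    have h2 : (p.1 * (p.2 : ℤ)).natAbs ≤ W := by
      rw [Int.natAbs_mul, Int.natAbs_natCast, hW]
      calc p.1.natAbs * p.2 ≤ Z * (2 * L) := Nat.mul_le_mul h1 hp.2.2
        _ = _ := by ring
    rw [mem_Icc]
    omega
  rw [← sum_fiberwise_of_maps_to hmaps]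
  have h1 : ∀ k ∈ Icc (-(W : ℤ)) W, ∑ p ∈ (F ×ˢ Ioc L (2 * L)).filter (fun p => p.1 * (p.2 : ℤ) = k),
      KK M (x - ((p.1 * (p.2 : ℤ) : ℤ) : ℝ) / q) ≤ T * KK M (x - (k : ℝ) / q) := by
    intro k _
    have h2 : ∀ p ∈ (F ×ˢ Ioc L (2 * L)).filter (fun p => p.1 * (p.2 : ℤ) = k),
        KK M (x - ((p.1 * (p.2 : ℤ) : ℤ) : ℝ) / q) = KK M (x - (k : ℝ) / q) := by
      intro p hp
      rw [mem_filter] at hp
      rw [hp.2]
    rw [sum_congr rfl h2, sum_const, nsmul_eq_mul]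
    exact mul_le_mul_of_nonneg_right (fiber_card hF hT0 hT k) (KK_nonneg (Nat.cast_nonneg _) _)
  refine (sum_le_sum h1).trans ?_
  rw [← mul_sum]
  apply mul_le_mul_of_nonneg_left _ hT0
  have e1 : Icc (-(W : ℤ)) W = (range (2 * W + 1)).image (fun i : ℕ => (i : ℤ) - W) := by
    ext k
    rw [mem_Icc, mem_image]
    constructor
    · intro hk
      exact ⟨(k + W).toNat, mem_range.2 (by omega), by omega⟩
    · rintro ⟨i, hi, rfl⟩
      rw [mem_range] at hi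
      omega
  rw [e1, sum_image (by intro x _ y _ h; simpa using h)]
  have e2 : ∀ i ∈ range (2 * W + 1), KK M (x - (((i : ℤ) - (W : ℤ) : ℤ) : ℝ) / q) =
      KK M ((-x - (W : ℝ) / q) + i * (1 / q)) := by
    intro i _
    rw [← KK_neg]
    congr 1
    push_cast
    ring
  rw [sum_congr rfl e2]
  have hcop : IsCoprime (1 : ℤ) (q : ℤ) := isCoprime_one_left
  have h3 := vino hq hcop (α := (1 : ℝ) / q) (by
    rw [show (1 : ℝ) / q - ((1 : ℤ) : ℝ) / q = 0 by push_cast; ring, abs_zero]; positivity)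
    (M := (M : ℝ)) (Nat.cast_nonneg _) (-x - (W : ℝ) / q) (2 * W + 1)
  refine h3.trans (le_of_eq ?_)
  congr 3
  rw [hW]
  push_cast
  ring

/-- bilinear sums over a shell of frequencies -/
theorem typeII_shell {q : ℕ} (hq : 1 ≤ q) {F : Finset ℤ} {Z : ℕ} (hF : ∀ h ∈ F, h ≠ 0 ∧ h.natAbs ≤ Z) (c : ℤ → ℂ)
    (N N' M L : ℕ) (a b : ℕ → ℂ) {T : ℝ} (hT0 : 0 ≤ T)
    (hT : ∀ k : ℕ, 1 ≤ k → k ≤ 2 * Z * L → (k.divisors.card : ℝ) ≤ T) :
    ‖∑ m ∈ Ioc M (2 * M), ∑ l ∈ Ioc L (2 * L), a m * b l *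
      (if N < m * l ∧ m * l ≤ N' then EF F c q (m * l) else 0)‖ ^ 2 ≤
      (∑ m ∈ Ioc M (2 * M), ‖a m‖ ^ 2) * (((∑ h ∈ F, ‖c h‖ ^ 2) * ∑ l ∈ Ioc L (2 * L), ‖b l‖ ^ 2) *
        (T * ((((4 * Z * L + 1 : ℕ) : ℝ) / q + 1) * (39 * M + 3 * q * (1 + Real.log q))))) := by
  classical
  set I : Finset (ℤ × ℕ) := F ×ˢ Ioc L (2 * L) with hI
  set B : ℤ × ℕ → ℂ := fun p => c p.1 * b p.2 with hB
  set xx : ℤ × ℕ → ℝ := fun p => ((p.1 * (p.2 : ℤ) : ℤ) : ℝ) / q with hxx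
  set S : ℕ → ℂ := fun m => ∑ p ∈ I, B p * (if N < m * p.2 ∧ m * p.2 ≤ N' then ee ((m : ℝ) * xx p) else 0) with hS
  have e1 : ∑ m ∈ Ioc M (2 * M), ∑ l ∈ Ioc L (2 * L), a m * b l *
      (if N < m * l ∧ m * l ≤ N' then EF F c q (m * l) else 0) = ∑ m ∈ Ioc M (2 * M), a m * S m := by
    apply sum_congr rfl; intro m _
    rw [hS]
    simp only
    rw [hI, sum_product_right, mul_sum]
    apply sum_congr rfl; intro l _
    rw [mul_assoc]
    congr 1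
    simp only [hB, hxx]
    by_cases hc : N < m * l ∧ m * l ≤ N'
    · rw [if_pos hc]
      simp only [if_pos hc]
      unfold EF
      rw [mul_sum]
      apply sum_congr rfl; intro h _
      have : (((m * l : ℕ) : ℝ)) * ((h : ℝ) / q) = (m : ℝ) * (((h * (l : ℤ) : ℤ) : ℝ) / q) := by
        push_cast; ring
      rw [this]; ring
    · rw [if_neg hc]
      simp only [if_neg hc]
      simp
  rw [e1]
  refine (cs_norm _ _ _).trans (mul_le_mul_of_nonneg_left ?_ (by positivity))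
  have h1 : ((∑ m ∈ Ioc M (2 * M), ‖S m‖ ^ 2 : ℝ) : ℂ) =
      ∑ p ∈ I, ∑ p' ∈ I, (B p * (starRingEnd ℂ) (B p')) *
        ∑ m ∈ (Ioc M (2 * M)).filter (fun m => (N < m * p.2 ∧ m * p.2 ≤ N') ∧ (N < m * p'.2 ∧ m * p'.2 ≤ N')),
          ee ((m : ℝ) * (xx p - xx p')) := by
    push_cast
    have h2 : ∀ m ∈ Ioc M (2 * M), ((‖S m‖ : ℂ)) ^ 2 = ∑ p ∈ I, ∑ p' ∈ I,
        (B p * (starRingEnd ℂ) (B p')) * (if (N < m * p.2 ∧ m * p.2 ≤ N') ∧ (N < m * p'.2 ∧ m * p'.2 ≤ N') then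
          ee ((m : ℝ) * (xx p - xx p')) else 0) := by
      intro m _
      rw [← Complex.mul_conj', hS]
      simp only
      rw [map_sum, sum_mul_sum]
      apply sum_congr rfl; intro p _
      apply sum_congr rfl; intro p' _
      rw [map_mul]
      by_cases g1 : N < m * p.2 ∧ m * p.2 ≤ N'
      · by_cases g2 : N < m * p'.2 ∧ m * p'.2 ≤ N'
        · rw [if_pos g1, if_pos g2, if_pos ⟨g1, g2⟩, ee_conj']
          have : ee ((m : ℝ) * (xx p - xx p')) = ee ((m : ℝ) * xx p) * ee (-((m : ℝ) * xx p')) := by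
            rw [← ee_add]; congr 1; ring
          rw [this]; ring
        · rw [if_neg g2, if_neg (show ¬ ((N < m * p.2 ∧ m * p.2 ≤ N') ∧ (N < m * p'.2 ∧ m * p'.2 ≤ N')) from fun h => g2 h.2)]; simp
      · rw [if_neg g1, if_neg (show ¬ ((N < m * p.2 ∧ m * p.2 ≤ N') ∧ (N < m * p'.2 ∧ m * p'.2 ≤ N')) from fun h => g1 h.1)]; simp
    rw [sum_congr rfl h2, sum_comm]
    apply sum_congr rfl; intro p _
    rw [sum_comm]
    apply sum_congr rfl; intro p' _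
    rw [← mul_sum, sum_filter]
  have hK : ∀ p ∈ I, ∀ p' ∈ I,
      ‖∑ m ∈ (Ioc M (2 * M)).filter (fun m => (N < m * p.2 ∧ m * p.2 ≤ N') ∧ (N < m * p'.2 ∧ m * p'.2 ≤ N')),
          ee ((m : ℝ) * (xx p - xx p'))‖ ≤ KK M (xx p - xx p') := by
    intro p hp p' hp'
    rw [hI, mem_product, mem_Ioc] at hp hp'
    obtain ⟨_, hl⟩ := hp
    obtain ⟨_, hl'⟩ := hp'
    generalize xx p - xx p' = x
    generalize p.2 = l at *
    generalize p'.2 = l' at *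
    have hl0 : 0 < l := by omega
    have hl0' : 0 < l' := by omega
    set lo := max M (max (N / l) (N / l')) with hlo
    set hi := min (2 * M) (min (N' / l) (N' / l')) with hhi
    have hset : (Ioc M (2 * M)).filter (fun m => (N < m * l ∧ m * l ≤ N') ∧ (N < m * l' ∧ m * l' ≤ N')) =
        Ico (lo + 1) (hi + 1) := by
      ext m
      rw [mem_filter, mem_Ioc, mem_Ico]
      have g1 : N < m * l ↔ N / l < m := (Nat.div_lt_iff_lt_mul hl0).symm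
      have g2 : m * l ≤ N' ↔ m ≤ N' / l := (Nat.le_div_iff_mul_le hl0).symm
      have g3 : N < m * l' ↔ N / l' < m := (Nat.div_lt_iff_lt_mul hl0').symm
      have g4 : m * l' ≤ N' ↔ m ≤ N' / l' := (Nat.le_div_iff_mul_le hl0').symm
      rw [g1, g2, g3, g4]
      omega
    rw [hset]
    rcases le_or_gt (lo + 1) (hi + 1) with h | h
    · apply geo_bound _ _ h
      have g1 : M ≤ lo := le_max_left _ _
      have g2 : hi ≤ 2 * M := min_le_left _ _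
      have g1r : (M : ℝ) ≤ lo := by exact_mod_cast g1
      have g2r : (hi : ℝ) ≤ 2 * M := by exact_mod_cast g2
      push_cast
      linarith
    · rw [Ico_eq_empty_of_le h.le, sum_empty, norm_zero]
      exact KK_nonneg (Nat.cast_nonneg _) _
  have h2 : ∑ m ∈ Ioc M (2 * M), ‖S m‖ ^ 2 ≤
      ∑ p ∈ I, ∑ p' ∈ I, (‖B p‖ ^ 2 + ‖B p'‖ ^ 2) / 2 * KK M (xx p - xx p') := by
    have h3 : (∑ m ∈ Ioc M (2 * M), ‖S m‖ ^ 2) = ‖((∑ m ∈ Ioc M (2 * M), ‖S m‖ ^ 2 : ℝ) : ℂ)‖ := by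
      rw [Complex.norm_real, Real.norm_of_nonneg (by positivity)]
    rw [h3, h1]
    refine (norm_sum_le _ _).trans (sum_le_sum fun p hp => ?_)
    refine (norm_sum_le _ _).trans (sum_le_sum fun p' hp' => ?_)
    rw [norm_mul, norm_mul, RCLike.norm_conj]
    apply mul_le_mul _ (hK p hp p' hp') (norm_nonneg _) (by positivity)
    nlinarith [sq_nonneg (‖B p‖ - ‖B p'‖)]
  refine h2.trans ?_
  have h4 : ∑ p ∈ I, ∑ p' ∈ I, (‖B p‖ ^ 2 + ‖B p'‖ ^ 2) / 2 * KK M (xx p - xx p') =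
      ∑ p ∈ I, ‖B p‖ ^ 2 * ∑ p' ∈ I, KK M (xx p - xx p') := by
    have e2 : ∀ p p' : ℤ × ℕ, (‖B p‖ ^ 2 + ‖B p'‖ ^ 2) / 2 * KK M (xx p - xx p') =
        1 / 2 * (‖B p‖ ^ 2 * KK M (xx p - xx p')) + 1 / 2 * (‖B p'‖ ^ 2 * KK M (xx p - xx p')) := by
      intro p p'; ring
    simp_rw [e2, sum_add_distrib]
    have e3 : ∑ p ∈ I, ∑ p' ∈ I, 1 / 2 * (‖B p'‖ ^ 2 * KK M (xx p - xx p')) =
        ∑ p ∈ I, ∑ p' ∈ I, 1 / 2 * (‖B p‖ ^ 2 * KK M (xx p - xx p')) := by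
      rw [sum_comm]
      apply sum_congr rfl; intro p _
      apply sum_congr rfl; intro p' _
      rw [← KK_neg]; congr 3; ring
    rw [e3, ← sum_add_distrib]
    apply sum_congr rfl; intro p _
    rw [← sum_add_distrib, mul_sum]
    apply sum_congr rfl; intro p' _
    ring
  rw [h4]
  have h5 : ∑ p ∈ I, ‖B p‖ ^ 2 = (∑ h ∈ F, ‖c h‖ ^ 2) * ∑ l ∈ Ioc L (2 * L), ‖b l‖ ^ 2 := by
    rw [hI, sum_product, sum_mul_sum]
    apply sum_congr rfl; intro h _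
    apply sum_congr rfl; intro l _
    simp only [hB]
    rw [norm_mul, mul_pow]
  rw [← h5, sum_mul]
  apply sum_le_sum
  intro p _
  apply mul_le_mul_of_nonneg_left _ (by positivity)
  exact KK_sum hq hF M L hT0 hT (xx p)

end Pool.Agent.K3h35.MP
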