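import Mathlib
import Pool.Agent.K3h35.MP.B

/-! All shells together: type II. -/

set_option autoImplicit false

namespace Pool.Agent.K3h35.MP

open Finset
open Pool.Agent.H807R2.Dav

/-- number of shells -/
def JJ (q : ℕ) : ℕ := Nat.log 2 q + 1

lemma shells {α : Type*} [AddCommMonoid α] {q : ℕ} (hq : 1 ≤ q) (f : ℤ → α) :
    ∑ h ∈ (SS q).erase 0, f h = ∑ s ∈ range (JJ q), ∑ h ∈ Fs q s, f h := by
  classical
  have hmaps : ∀ h ∈ (SS q).erase 0, Nat.log 2 h.natAbs ∈ range (JJ q) := by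
    intro h hh
    rw [mem_erase] at hh
    have h1 := SS_abs hq hh.2
    rw [mem_range, JJ]
    have : Nat.log 2 h.natAbs ≤ Nat.log 2 q := Nat.log_mono_right (by omega)
    omega
  rw [← sum_fiberwise_of_maps_to hmaps]
  apply sum_congr rfl
  intro s _
  apply sum_congr _ fun _ _ => rfl
  ext h
  unfold Fs
  rw [mem_filter, mem_filter, mem_erase]
  constructor
  · rintro ⟨⟨h0, h1⟩, h2⟩
    refine ⟨h1, ?_, ?_⟩
    · rw [← h2]; exact Nat.pow_log_le_self 2 (by omega)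
    · rw [← h2]; exact Nat.lt_pow_succ_log_self (by norm_num) _
  · rintro ⟨h1, h2, h3⟩
    have h0 : h ≠ 0 := by
      rintro rfl
      simp at h2
    exact ⟨⟨h0, h1⟩, Nat.log_eq_of_pow_le_of_lt_pow h2 h3⟩

/-- the function with its mean value removed -/
noncomputable def EE (q : ℕ) (g : ℕ → ℝ) (n : ℕ) : ℂ := (g n : ℂ) - cf q g 0

lemma EE_eq {q : ℕ} (hq : 1 ≤ q) {g : ℕ → ℝ} (hg : ∀ n, g (n + q) = g n) (n : ℕ) :
    EE q g n = ∑ h ∈ (SS q).erase 0, cf q g h * ee ((n : ℝ) * ((h : ℝ) / q)) := by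
  unfold EE
  rw [inversion hq hg n, ← add_sum_erase _ _ (SS_zero hq)]
  have : ee ((n : ℝ) * (((0 : ℤ) : ℝ) / q)) = 1 := by simp [ee_zero]
  rw [this]
  ring

lemma EE_shells {q : ℕ} (hq : 1 ≤ q) {g : ℕ → ℝ} (hg : ∀ n, g (n + q) = g n) (n : ℕ) :
    EE q g n = ∑ s ∈ range (JJ q), EF (Fs q s) (cf q g) q n := by
  rw [EE_eq hq hg, shells hq]
  rfl

/-- type II, all shells -/
theorem typeII_tot {q : ℕ} (hq : 1 ≤ q) {g : ℕ → ℝ} (hg : ∀ n, g (n + q) = g n) {P ρ T : ℝ}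
    (hP0 : 0 ≤ P) (hV : ∀ s : ℕ, ∑ h ∈ Fs q s, ‖cf q g h‖ ^ 2 ≤ 4 * P / 2 ^ s)
    (hρ : ∑ h ∈ SS q, ‖cf q g h‖ ^ 2 ≤ ρ) (hT0 : 0 ≤ T)
    (N N' M L : ℕ) (hT : ∀ k : ℕ, 1 ≤ k → k ≤ 8 * q * L → (k.divisors.card : ℝ) ≤ T) (a b : ℕ → ℂ) :
    ‖∑ m ∈ Ioc M (2 * M), ∑ l ∈ Ioc L (2 * L), a m * b l *
      (if N < m * l ∧ m * l ≤ N' then EE q g (m * l) else 0)‖ ^ 2 ≤
      (∑ m ∈ Ioc M (2 * M), ‖a m‖ ^ 2) * ((∑ l ∈ Ioc L (2 * L), ‖b l‖ ^ 2) *
        (JJ q * T * ((32 * P * JJ q * L / q + 2 * ρ) * (39 * M + 3 * q * (1 + Real.log q))))) := by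
  classical
  have hq0 : (0 : ℝ) < q := by exact_mod_cast hq
  have hq1 : (1 : ℝ) ≤ q := by exact_mod_cast hq
  have hlg : 0 ≤ Real.log q := Real.log_nonneg hq1
  set K0 : ℝ := 39 * M + 3 * q * (1 + Real.log q) with hK0
  have hK00 : 0 ≤ K0 := by positivity
  set Aa := ∑ m ∈ Ioc M (2 * M), ‖a m‖ ^ 2 with hAa
  set Bb := ∑ l ∈ Ioc L (2 * L), ‖b l‖ ^ 2 with hBb
  have hAa0 : 0 ≤ Aa := sum_nonneg fun _ _ => by positivity
  have hBb0 : 0 ≤ Bb := sum_nonneg fun _ _ => by positivity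
  set X : ℕ → ℂ := fun s => ∑ m ∈ Ioc M (2 * M), ∑ l ∈ Ioc L (2 * L), a m * b l *
      (if N < m * l ∧ m * l ≤ N' then EF (Fs q s) (cf q g) q (m * l) else 0) with hX
  have e1 : ∑ m ∈ Ioc M (2 * M), ∑ l ∈ Ioc L (2 * L), a m * b l *
      (if N < m * l ∧ m * l ≤ N' then EE q g (m * l) else 0) = ∑ s ∈ range (JJ q), X s := by
    rw [hX]
    simp only
    symm
    rw [sum_comm]
    apply sum_congr rfl; intro m _
    rw [sum_comm]
    apply sum_congr rfl; intro l _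
    rw [← mul_sum]
    congr 1
    split_ifs
    · exact (EE_shells hq hg _).symm
    · simp
  rw [e1]
  set V : ℕ → ℝ := fun s => ∑ h ∈ Fs q s, ‖cf q g h‖ ^ 2 with hVd
  have hV0 : ∀ s, 0 ≤ V s := fun s => sum_nonneg fun _ _ => by positivity
  have hXs : ∀ s ∈ range (JJ q), ‖X s‖ ^ 2 ≤ Aa * (Bb * (T * ((32 * P * L / q + 2 * V s) * K0))) := by
    intro s hs
    rw [mem_range, JJ] at hs
    have h2s : 2 ^ s ≤ q := (Nat.pow_le_pow_right (by norm_num) (by omega : s ≤ Nat.log 2 q)).trans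
      (Nat.pow_log_le_self 2 (by omega))
    have hF : ∀ h ∈ Fs q s, h ≠ 0 ∧ h.natAbs ≤ 2 ^ (s + 1) := by
      intro h hh
      unfold Fs at hh
      rw [mem_filter] at hh
      refine ⟨?_, by omega⟩
      rintro rfl
      simp at hh
    have h1 := typeII_shell hq hF (cf q g) N N' M L a b hT0 (by
      intro k hk1 hk2
      apply hT k hk1
      refine hk2.trans ?_
      rw [pow_succ]
      have : 2 ^ s * L ≤ q * L := Nat.mul_le_mul_right _ h2s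
      nlinarith)
    refine h1.trans ?_
    rw [mul_comm (∑ h ∈ Fs q s, ‖cf q g h‖ ^ 2) Bb, mul_assoc Bb]
    apply mul_le_mul_of_nonneg_left _ hAa0
    apply mul_le_mul_of_nonneg_left _ hBb0
    have e2 : (∑ h ∈ Fs q s, ‖cf q g h‖ ^ 2) * (T * ((((4 * 2 ^ (s + 1) * L + 1 : ℕ) : ℝ) / q + 1) * K0)) =
        T * ((V s * (((4 * 2 ^ (s + 1) * L + 1 : ℕ) : ℝ) / q + 1)) * K0) := by
      simp only [hVd]; ring
    rw [e2]
    apply mul_le_mul_of_nonneg_left _ hT0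
    apply mul_le_mul_of_nonneg_right _ hK00
    have h3 : V s ≤ 4 * P / 2 ^ s := hV s
    have h2sr : (0 : ℝ) < 2 ^ s := by positivity
    have h4 : V s * 2 ^ s ≤ 4 * P := by
      rw [le_div_iff₀ h2sr] at h3
      exact h3
    have e3 : V s * (((4 * 2 ^ (s + 1) * L + 1 : ℕ) : ℝ) / q + 1) = (8 * (V s * 2 ^ s)) * (L / q) + V s * (1 / q + 1) := by
      push_cast
      rw [pow_succ]
      field_simp
      ring
    rw [e3]
    have h5 : (8 * (V s * 2 ^ s)) * ((L : ℝ) / q) ≤ 32 * P * L / q := by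
      rw [mul_div_assoc]
      apply mul_le_mul_of_nonneg_right _ (by positivity)
      linarith
    have h6 : 1 / (q : ℝ) ≤ 1 := by
      rw [div_le_one hq0]; exact hq1
    have h7 := hV0 s
    nlinarith
  have hJ : ‖∑ s ∈ range (JJ q), X s‖ ^ 2 ≤ JJ q * ∑ s ∈ range (JJ q), ‖X s‖ ^ 2 := by
    calc ‖∑ s ∈ range (JJ q), X s‖ ^ 2 ≤ (∑ s ∈ range (JJ q), ‖X s‖) ^ 2 :=
          pow_le_pow_left₀ (norm_nonneg _) (norm_sum_le _ _) 2
      _ ≤ _ := by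
          have := sq_sum_le_card_mul_sum_sq (s := range (JJ q)) (f := fun s => ‖X s‖)
          rw [card_range] at this
          exact this
  refine hJ.trans ?_
  have hJ0 : (0 : ℝ) ≤ JJ q := Nat.cast_nonneg _
  calc (JJ q : ℝ) * ∑ s ∈ range (JJ q), ‖X s‖ ^ 2
      ≤ JJ q * ∑ s ∈ range (JJ q), Aa * (Bb * (T * ((32 * P * L / q + 2 * V s) * K0))) :=
        mul_le_mul_of_nonneg_left (sum_le_sum hXs) hJ0
    _ = JJ q * (Aa * (Bb * (T * ((32 * P * JJ q * L / q + 2 * ∑ s ∈ range (JJ q), V s) * K0)))) := by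
        rw [← mul_sum, ← mul_sum, ← mul_sum, ← sum_mul, sum_add_distrib, sum_const, card_range, ← mul_sum, nsmul_eq_mul]
        ring
    _ ≤ JJ q * (Aa * (Bb * (T * ((32 * P * JJ q * L / q + 2 * ρ) * K0)))) := by
        have hsumV : ∑ s ∈ range (JJ q), V s ≤ ρ := by
          refine le_trans ?_ hρ
          rw [← shells hq (fun h => ‖cf q g h‖ ^ 2)]
          exact sum_le_sum_of_subset_of_nonneg (erase_subset _ _) (fun _ _ _ => by positivity)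
        gcongr
    _ = _ := by ring

/-- the size of the type II bound -/
noncomputable def RR (P ρ T : ℝ) (q N U : ℕ) : ℝ :=
  4992 * (1 + Real.log q) * (JJ q : ℝ) ^ 2 * T * N * (P * N / q + P * √N + ρ * N / U + ρ * q)

lemma RR_ineq {q : ℕ} (hq : 1 ≤ q) {P ρ T : ℝ} (hP0 : 0 ≤ P) (hρ0 : 0 ≤ ρ) (hT0 : 0 ≤ T) {N M L U : ℕ} (hL : 1 ≤ L)
    (hLM : L ≤ M) (hU : 1 ≤ U) (hUL : U < 2 * L) (hML : M * L ≤ 2 * N) {A₂ B₂ : ℝ} (hA : 0 ≤ A₂) (hB : 0 ≤ B₂) :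
    (A₂ * M) * ((B₂ * L) * (JJ q * T * ((32 * P * JJ q * L / q + 2 * ρ) * (39 * M + 3 * q * (1 + Real.log q))))) ≤
      A₂ * B₂ * RR P ρ T q N U := by
  have hq0 : (0 : ℝ) < q := by exact_mod_cast hq
  have hq1 : (1 : ℝ) ≤ q := by exact_mod_cast hq
  have hlg : 0 ≤ Real.log q := Real.log_nonneg hq1
  set lg := 1 + Real.log q with hlgd
  have hlg1 : 1 ≤ lg := by linarith
  have hJ1 : (1 : ℝ) ≤ JJ q := by
    have : 1 ≤ JJ q := by unfold JJ; omega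
    exact_mod_cast this
  set J : ℝ := (JJ q : ℝ) with hJd
  have hL0 : (1 : ℝ) ≤ L := by exact_mod_cast hL
  have hM0 : (0 : ℝ) ≤ M := Nat.cast_nonneg _
  have hU0 : (0 : ℝ) < U := by exact_mod_cast hU
  have hMLr : (M : ℝ) * L ≤ 2 * N := by exact_mod_cast hML
  have hLMr : (L : ℝ) ≤ M := by exact_mod_cast hLM
  have hN0 : (0 : ℝ) ≤ N := Nat.cast_nonneg _
  have hs : (√(N : ℝ)) ^ 2 = N := Real.sq_sqrt hN0
  have hs0 : 0 ≤ √(N : ℝ) := Real.sqrt_nonneg _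
  have hLs : (L : ℝ) ≤ 2 * √(N : ℝ) := by
    have h1 : (L : ℝ) ^ 2 ≤ (2 * √(N : ℝ)) ^ 2 := by
      rw [mul_pow, hs]
      nlinarith
    exact le_of_sq_le_sq h1 (by positivity)
  have hMU : (M : ℝ) ≤ 4 * (N / U) := by
    rw [mul_div_assoc', le_div_iff₀ hU0]
    have : (U : ℝ) ≤ 2 * L := by exact_mod_cast hUL.le
    nlinarith
  have h1 : (32 * P * J * L / q + 2 * ρ) ≤ J * (32 * P * L / q + 2 * ρ) := by
    have : 32 * P * J * L / q = J * (32 * P * L / q) := by ring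
    rw [this]
    nlinarith
  have h2 : 39 * (M : ℝ) + 3 * q * lg ≤ 39 * lg * (M + q) := by nlinarith
  have h3 : (32 * P * L / q + 2 * ρ) * (M + q) ≤ 64 * (P * N / q + P * √N + ρ * N / U + ρ * q) := by
    have e : (32 * P * L / q + 2 * ρ) * (M + q) = 32 * P * (M * L) / q + 32 * P * L + 2 * ρ * M + 2 * ρ * q := by
      field_simp; ring
    rw [e]
    have t1 : 32 * P * (M * L) / q ≤ 64 * (P * N / q) := by
      have : 32 * P * (M * L) / q ≤ 32 * P * (2 * N) / q := by gcongr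
      refine this.trans (le_of_eq ?_)
      ring
    have t2 : 32 * P * L ≤ 64 * (P * √N) := by
      have : 32 * P * L ≤ 32 * P * (2 * √N) := by gcongr
      refine this.trans (le_of_eq ?_)
      ring
    have t3 : 2 * ρ * M ≤ 64 * (ρ * N / U) := by
      have h5 : 2 * ρ * M ≤ 2 * ρ * (4 * (N / U)) := by gcongr
      have h6 : 0 ≤ ρ * N / U := by positivity
      have h7 : 2 * ρ * (4 * ((N : ℝ) / U)) = 8 * (ρ * N / U) := by ring
      linarith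
    have t4 : 2 * ρ * q ≤ 64 * (ρ * q) := by
      have : 0 ≤ ρ * q := by positivity
      linarith
    linarith
  have h4 : (32 * P * J * L / q + 2 * ρ) * (39 * M + 3 * q * lg) ≤
      J * (39 * lg * (64 * (P * N / q + P * √N + ρ * N / U + ρ * q))) := by
    calc (32 * P * J * L / q + 2 * ρ) * (39 * M + 3 * q * lg)
        ≤ (J * (32 * P * L / q + 2 * ρ)) * (39 * lg * (M + q)) := by
          apply mul_le_mul h1 h2 (by positivity) (by positivity)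
      _ = J * (39 * lg * ((32 * P * L / q + 2 * ρ) * (M + q))) := by ring
      _ ≤ _ := by gcongr
  calc (A₂ * M) * ((B₂ * L) * (J * T * ((32 * P * J * L / q + 2 * ρ) * (39 * M + 3 * q * lg))))
      ≤ (A₂ * M) * ((B₂ * L) * (J * T * (J * (39 * lg * (64 * (P * N / q + P * √N + ρ * N / U + ρ * q)))))) := by
        gcongr
    _ = A₂ * B₂ * ((M * L) * (J * T * (J * (39 * lg * (64 * (P * N / q + P * √N + ρ * N / U + ρ * q)))))) := by ring
    _ ≤ A₂ * B₂ * ((2 * N) * (J * T * (J * (39 * lg * (64 * (P * N / q + P * √N + ρ * N / U + ρ * q)))))) := by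
        gcongr
    _ = A₂ * B₂ * RR P ρ T q N U := by
        unfold RR
        ring

/-- type II in the form needed for Vaughan's identity -/
theorem typeII_fin {q : ℕ} (hq : 1 ≤ q) {g : ℕ → ℝ} (hg : ∀ n, g (n + q) = g n) {P ρ T : ℝ}
    (hP0 : 0 ≤ P) (hV : ∀ s : ℕ, ∑ h ∈ Fs q s, ‖cf q g h‖ ^ 2 ≤ 4 * P / 2 ^ s)
    (hρ : ∑ h ∈ SS q, ‖cf q g h‖ ^ 2 ≤ ρ) (hT0 : 0 ≤ T)
    (N N' U : ℕ) (hN' : N' ≤ 2 * N) (hU : 1 ≤ U)
    (hT : ∀ k : ℕ, 1 ≤ k → k ≤ 8 * q * N' → (k.divisors.card : ℝ) ≤ T) (a b : ℕ → ℂ) (A₂ B₂ : ℝ) (hA : 0 ≤ A₂) (hB : 0 ≤ B₂)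
    (M L : ℕ) (hM : 1 ≤ M) (hL : 1 ≤ L) (hUM : U < 2 * M) (hUL : U < 2 * L) (hML : M * L ≤ N')
    (ha : ∑ m ∈ Ioc M (2 * M), ‖a m‖ ^ 2 ≤ A₂ * M) (hb : ∑ l ∈ Ioc L (2 * L), ‖b l‖ ^ 2 ≤ B₂ * L) :
    ‖∑ m ∈ Ioc M (2 * M), ∑ l ∈ Ioc L (2 * L), a m * b l *
      (if N < m * l ∧ m * l ≤ N' then EE q g (m * l) else 0)‖ ^ 2 ≤ A₂ * B₂ * RR P ρ T q N U := by
  have hρ0 : 0 ≤ ρ := le_trans (sum_nonneg fun _ _ => by positivity) hρ
  have hq1 : (1 : ℝ) ≤ q := by exact_mod_cast hq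
  have hlg : 0 ≤ Real.log q := Real.log_nonneg hq1
  rcases Nat.le_total L M with h | h
  · refine (typeII_tot hq hg hP0 hV hρ hT0 N N' M L (fun k hk1 hk2 => hT k hk1 (hk2.trans ?_)) a b).trans ?_
    · have : L ≤ N' := le_trans (Nat.le_mul_of_pos_left _ (by omega)) hML
      exact Nat.mul_le_mul_left _ this
    · refine le_trans ?_ (RR_ineq hq hP0 hρ0 hT0 hL h hU hUL (hML.trans hN') hA hB)
      gcongr
  · have e1 : ∑ m ∈ Ioc M (2 * M), ∑ l ∈ Ioc L (2 * L), a m * b l *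
        (if N < m * l ∧ m * l ≤ N' then EE q g (m * l) else 0) =
        ∑ l ∈ Ioc L (2 * L), ∑ m ∈ Ioc M (2 * M), b l * a m *
        (if N < l * m ∧ l * m ≤ N' then EE q g (l * m) else 0) := by
      rw [sum_comm]
      apply sum_congr rfl; intro l _
      apply sum_congr rfl; intro m _
      rw [mul_comm l m, mul_comm (b l)]
    rw [e1]
    have hML' : L * M ≤ N' := by rw [mul_comm]; exact hML
    refine (typeII_tot hq hg hP0 hV hρ hT0 N N' L M (fun k hk1 hk2 => hT k hk1 (hk2.trans ?_)) b a).trans ?_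
    · have : M ≤ N' := le_trans (Nat.le_mul_of_pos_right _ (by omega)) hML
      exact Nat.mul_le_mul_left _ this
    · rw [mul_comm A₂ B₂]
      refine le_trans ?_ (RR_ineq hq hP0 hρ0 hT0 hM h hU hUM (hML'.trans hN') hB hA)
      gcongr

end Pool.Agent.K3h35.MP
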