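import Mathlib
import Pool.Agent.K3h35.MP.C

/-! Type I sums and the bound for one dyadic block. -/

set_option autoImplicit false

namespace Pool.Agent.K3h35.MP

open Finset
open Pool.Agent.H807R2.Dav
open Pool.Agent.H373R2.T7 (typeI_lin vaughan_gen)

/-- one frequency -/
lemma typeI_h {q : ℕ} (hq : 1 ≤ q) (h : ℤ) (N D : ℕ) (hN : 1 ≤ N) (hD : 1 ≤ D) :
    ∑ m ∈ Icc 1 D, KK (2 * N / m) (m * ((h : ℝ) / q)) ≤
      600 * (Nat.log 2 D + 1 : ℝ) * ((N : ℝ) * (h.natAbs.gcd q : ℕ) / q + D + q) * (1 + Real.log q) := by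
  have hq0 : (0 : ℝ) < q := by exact_mod_cast hq
  set d := h.natAbs.gcd q with hd
  have hd0 : 0 < d := Nat.gcd_pos_of_pos_right _ (by omega)
  have hdq : d ∣ q := Nat.gcd_dvd_right _ _
  have hdh : (d : ℤ) ∣ h := by
    have h1 : d ∣ h.natAbs := Nat.gcd_dvd_left _ _
    exact Int.natCast_dvd.2 h1
  obtain ⟨q1, hq1⟩ := hdq
  obtain ⟨a, ha⟩ := hdh
  have hq10 : 1 ≤ q1 := by
    rcases Nat.eq_zero_or_pos q1 with h0 | h0
    · rw [h0] at hq1; omega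
    · exact h0
  have hd0r : (0 : ℝ) < d := by exact_mod_cast hd0
  have hq1r : (0 : ℝ) < q1 := by exact_mod_cast hq10
  have hcop : IsCoprime a (q1 : ℤ) := by
    rw [Int.isCoprime_iff_gcd_eq_one]
    have h1 : h.natAbs = d * a.natAbs := by
      rw [ha, Int.natAbs_mul, Int.natAbs_natCast]
    have h2 : d = d * (a.natAbs.gcd q1) := by
      conv_lhs => rw [hd, h1, hq1]
      rw [Nat.gcd_mul_left]
    have h3 : a.natAbs.gcd q1 = 1 := by
      have h4 : d * 1 = d * (a.natAbs.gcd q1) := by rw [mul_one]; exact h2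
      exact (Nat.eq_of_mul_eq_mul_left hd0 h4).symm
    rw [Int.gcd]
    simpa using h3
  have hα : |(h : ℝ) / q - (a : ℝ) / (q1 : ℕ)| ≤ 1 / ((q1 : ℕ) : ℝ) ^ 2 := by
    have : (h : ℝ) / q - (a : ℝ) / (q1 : ℕ) = 0 := by
      rw [sub_eq_zero, ha, hq1]
      push_cast
      field_simp
    rw [this, abs_zero]
    positivity
  have key := typeI_lin hq10 hcop hα N D hN hD
  refine key.trans ?_
  have hq1q : (q1 : ℝ) ≤ q := by
    rw [hq1]
    exact_mod_cast Nat.le_mul_of_pos_left _ hd0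
  have hl : Real.log q1 ≤ Real.log q := Real.log_le_log hq1r hq1q
  have hl0 : 0 ≤ Real.log q1 := Real.log_nonneg (by exact_mod_cast hq10)
  have e1 : (N : ℝ) / q1 = (N : ℝ) * d / q := by
    rw [hq1]
    push_cast
    field_simp
  rw [e1]
  gcongr

/-- sum of squares of greatest common divisors -/
lemma gcd_sq {q : ℕ} (hq : 1 ≤ q) (Z : ℕ) : ∑ n ∈ Icc 1 Z, ((n.gcd q : ℕ) : ℝ) ^ 2 ≤ Z * (q * (1 + Real.log q)) := by
  classical
  have hq0 : (0 : ℝ) < q := by exact_mod_cast hq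
  have h1 : ∀ n ∈ Icc 1 Z, ((n.gcd q : ℕ) : ℝ) ^ 2 ≤ ∑ d ∈ q.divisors, if d ∣ n then ((d : ℕ) : ℝ) ^ 2 else 0 := by
    intro n hn
    have hmem : n.gcd q ∈ q.divisors := Nat.mem_divisors.2 ⟨Nat.gcd_dvd_right _ _, by omega⟩
    have h2 := single_le_sum (f := fun d : ℕ => if d ∣ n then ((d : ℕ) : ℝ) ^ 2 else 0)
      (fun d _ => by split_ifs <;> positivity) hmem
    simp only [Nat.gcd_dvd_left, if_true] at h2
    exact h2
  refine (sum_le_sum h1).trans ?_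
  rw [sum_comm]
  have h3 : ∀ d ∈ q.divisors, ∑ n ∈ Icc 1 Z, (if d ∣ n then ((d : ℕ) : ℝ) ^ 2 else 0) ≤ Z * d := by
    intro d hd
    have hd0 : 0 < d := Nat.pos_of_mem_divisors hd
    have hd0r : (0 : ℝ) < d := by exact_mod_cast hd0
    rw [← sum_filter, sum_const, nsmul_eq_mul]
    have h4 : ((Icc 1 Z).filter (fun n => d ∣ n)).card = Z / d := by
      have : (Icc 1 Z) = Ioc 0 Z := by ext x; rw [mem_Icc, mem_Ioc]; omega
      rw [this]
      exact Nat.Ioc_filter_dvd_card_eq_div Z d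
    rw [h4]
    have h5 : ((Z / d : ℕ) : ℝ) ≤ Z / d := Nat.cast_div_le
    calc ((Z / d : ℕ) : ℝ) * (d : ℝ) ^ 2 ≤ ((Z : ℝ) / d) * (d : ℝ) ^ 2 := by gcongr
      _ = (Z : ℝ) * d := by field_simp
  refine (sum_le_sum h3).trans ?_
  rw [← mul_sum]
  apply mul_le_mul_of_nonneg_left _ (Nat.cast_nonneg _)
  have h6 : ∑ d ∈ q.divisors, (d : ℝ) = ∑ d ∈ q.divisors, (q : ℝ) * (1 / d) := by
    rw [← Nat.sum_div_divisors q (fun d => (d : ℝ))]
    apply sum_congr rfl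
    intro d hd
    rw [Nat.mem_divisors] at hd
    have hd0 : (d : ℝ) ≠ 0 := by
      have : d ≠ 0 := fun h => by rw [h] at hd; exact hd.2 (Nat.eq_zero_of_zero_dvd hd.1)
      exact_mod_cast this
    rw [Nat.cast_div hd.1 hd0]
    ring
  rw [h6, ← mul_sum]
  apply mul_le_mul_of_nonneg_left _ hq0.le
  calc ∑ d ∈ q.divisors, (1 / (d : ℝ)) ≤ ∑ d ∈ Icc 1 q, (1 / (d : ℝ)) := by
        apply sum_le_sum_of_subset_of_nonneg
        · intro d hd
          rw [Nat.mem_divisors] at hd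
          rw [mem_Icc]
          exact ⟨Nat.pos_of_ne_zero (fun h => by rw [h] at hd; exact hd.2 (Nat.eq_zero_of_zero_dvd hd.1)),
            Nat.le_of_dvd (by omega) hd.1⟩
        · intro _ _ _; positivity
    _ = ((harmonic q : ℚ) : ℝ) := by
        rw [harmonic_eq_sum_Icc]
        push_cast
        apply sum_congr rfl
        intro d _
        rw [one_div]
    _ ≤ _ := harmonic_le_one_add_log q

lemma shell_to_nat {q s : ℕ} (f : ℕ → ℝ) (hf : ∀ n, 0 ≤ f n) :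
    ∑ h ∈ Fs q s, f h.natAbs ≤ 2 * ∑ n ∈ Icc 1 (2 ^ (s + 1)), f n := by
  classical
  have h1 : Fs q s ⊆ ((Icc 1 (2 ^ (s + 1))).image (fun n : ℕ => (n : ℤ))) ∪ ((Icc 1 (2 ^ (s + 1))).image (fun n : ℕ => -(n : ℤ))) := by
    intro h hh
    unfold Fs at hh
    rw [mem_filter] at hh
    obtain ⟨_, h2, h3⟩ := hh
    have h4 : 1 ≤ 2 ^ s := Nat.one_le_two_pow
    rw [mem_union, mem_image, mem_image]
    rcases Int.natAbs_eq h with h' | h'
    · left
      exact ⟨h.natAbs, mem_Icc.2 ⟨by omega, by omega⟩, h'.symm⟩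
    · right
      exact ⟨h.natAbs, mem_Icc.2 ⟨by omega, by omega⟩, h'.symm⟩
  calc ∑ h ∈ Fs q s, f h.natAbs ≤ ∑ h ∈ ((Icc 1 (2 ^ (s + 1))).image (fun n : ℕ => (n : ℤ))) ∪
        ((Icc 1 (2 ^ (s + 1))).image (fun n : ℕ => -(n : ℤ))), f h.natAbs :=
        sum_le_sum_of_subset_of_nonneg h1 (fun _ _ _ => hf _)
    _ ≤ ∑ h ∈ ((Icc 1 (2 ^ (s + 1))).image (fun n : ℕ => (n : ℤ))), f h.natAbs +
        ∑ h ∈ ((Icc 1 (2 ^ (s + 1))).image (fun n : ℕ => -(n : ℤ))), f h.natAbs := by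
        rw [← sum_union_inter]
        have : 0 ≤ ∑ h ∈ ((Icc 1 (2 ^ (s + 1))).image (fun n : ℕ => (n : ℤ))) ∩
          ((Icc 1 (2 ^ (s + 1))).image (fun n : ℕ => -(n : ℤ))), f h.natAbs := sum_nonneg fun _ _ => hf _
        linarith
    _ = _ := by
        rw [sum_image (by intro x _ y _ h; simpa using h), sum_image (by intro x _ y _ h; simpa using h)]
        simp only [Int.natAbs_natCast, Int.natAbs_neg]
        ring

section
variable {q : ℕ} {g : ℕ → ℝ} {P : ℝ}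

lemma cf_gcd (hq : 1 ≤ q) (hP0 : 0 ≤ P) (hV : ∀ s : ℕ, ∑ h ∈ Fs q s, ‖cf q g h‖ ^ 2 ≤ 4 * P / 2 ^ s) :
    ∑ h ∈ (SS q).erase 0, ‖cf q g h‖ * (h.natAbs.gcd q : ℕ) ≤ JJ q * (4 * √(P * (q * (1 + Real.log q)))) := by
  rw [shells hq]
  have hlg : 0 ≤ Real.log q := Real.log_nonneg (by exact_mod_cast hq)
  have h1 : ∀ s ∈ range (JJ q), ∑ h ∈ Fs q s, ‖cf q g h‖ * ((h.natAbs.gcd q : ℕ) : ℝ) ≤ 4 * √(P * (q * (1 + Real.log q))) := by
    intro s _
    have h2 := sum_mul_sq_le_sq_mul_sq (Fs q s) (fun h => ‖cf q g h‖) (fun h => ((h.natAbs.gcd q : ℕ) : ℝ))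
    have h3 : ∑ h ∈ Fs q s, ((h.natAbs.gcd q : ℕ) : ℝ) ^ 2 ≤ 2 * ((2 ^ (s + 1) : ℕ) * (q * (1 + Real.log q))) := by
      refine (shell_to_nat (fun n => ((n.gcd q : ℕ) : ℝ) ^ 2) (fun _ => by positivity)).trans ?_
      exact mul_le_mul_of_nonneg_left (gcd_sq hq _) (by norm_num)
    have h4 : (∑ h ∈ Fs q s, ‖cf q g h‖ ^ 2) * ∑ h ∈ Fs q s, ((h.natAbs.gcd q : ℕ) : ℝ) ^ 2 ≤
        (4 * √(P * (q * (1 + Real.log q)))) ^ 2 := by
      rw [mul_pow, Real.sq_sqrt (by positivity)]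
      calc _ ≤ (4 * P / 2 ^ s) * (2 * ((2 ^ (s + 1) : ℕ) * (q * (1 + Real.log q)))) := by
            apply mul_le_mul (hV s) h3 (sum_nonneg fun _ _ => by positivity) (by positivity)
        _ = _ := by
            push_cast
            rw [pow_succ]
            field_simp
            ring
    exact le_of_sq_le_sq (h2.trans h4) (by positivity)
  refine (sum_le_sum h1).trans ?_
  rw [sum_const, card_range, nsmul_eq_mul]

lemma cf_one (hq : 1 ≤ q) (hP0 : 0 ≤ P) (hV : ∀ s : ℕ, ∑ h ∈ Fs q s, ‖cf q g h‖ ^ 2 ≤ 4 * P / 2 ^ s) :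
    ∑ h ∈ (SS q).erase 0, ‖cf q g h‖ ≤ JJ q * (4 * √P) := by
  rw [shells hq]
  have h1 : ∀ s ∈ range (JJ q), ∑ h ∈ Fs q s, ‖cf q g h‖ ≤ 4 * √P := by
    intro s _
    have h2 := sum_mul_sq_le_sq_mul_sq (Fs q s) (fun h => ‖cf q g h‖) (fun _ => (1 : ℝ))
    have h3 : ∑ h ∈ Fs q s, (1 : ℝ) ^ 2 ≤ 2 * ((2 ^ (s + 1) : ℕ) : ℝ) := by
      have := shell_to_nat (q := q) (s := s) (fun n => (1 : ℝ) ^ 2) (fun _ => by positivity)
      simpa using this
    have h4 : (∑ h ∈ Fs q s, ‖cf q g h‖ ^ 2) * ∑ h ∈ Fs q s, (1 : ℝ) ^ 2 ≤ (4 * √P) ^ 2 := by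
      rw [mul_pow, Real.sq_sqrt hP0]
      calc _ ≤ (4 * P / 2 ^ s) * (2 * ((2 ^ (s + 1) : ℕ) : ℝ)) := by
            apply mul_le_mul (hV s) h3 (sum_nonneg fun _ _ => by positivity) (by positivity)
        _ = _ := by
            push_cast
            rw [pow_succ]
            field_simp
            ring
    have h5 := le_of_sq_le_sq (h2.trans h4) (by positivity)
    simpa using h5
  refine (sum_le_sum h1).trans ?_
  rw [sum_const, card_range, nsmul_eq_mul]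

/-- all frequencies, type I -/
lemma typeI_tot (hq : 1 ≤ q) (hP0 : 0 ≤ P) (hV : ∀ s : ℕ, ∑ h ∈ Fs q s, ‖cf q g h‖ ^ 2 ≤ 4 * P / 2 ^ s)
    (N D : ℕ) (hN : 1 ≤ N) (hD : 1 ≤ D) :
    ∑ m ∈ Icc 1 D, ∑ h ∈ (SS q).erase 0, ‖cf q g h‖ * KK (2 * N / m) (m * ((h : ℝ) / q)) ≤
      600 * (Nat.log 2 D + 1 : ℝ) * (1 + Real.log q) * (JJ q * (4 * (N / q * √(P * (q * (1 + Real.log q))) +
        (D + q) * √P))) := by
  have hq0 : (0 : ℝ) < q := by exact_mod_cast hq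
  have hlg : 0 ≤ Real.log q := Real.log_nonneg (by exact_mod_cast hq)
  rw [sum_comm]
  have h1 : ∀ h ∈ (SS q).erase 0, ∑ m ∈ Icc 1 D, ‖cf q g h‖ * KK (2 * N / m) (m * ((h : ℝ) / q)) ≤
      600 * (Nat.log 2 D + 1 : ℝ) * (1 + Real.log q) * (N / q * (‖cf q g h‖ * (h.natAbs.gcd q : ℕ)) + (D + q) * ‖cf q g h‖) := by
    intro h _
    rw [← mul_sum]
    refine (mul_le_mul_of_nonneg_left (typeI_h hq h N D hN hD) (norm_nonneg _)).trans (le_of_eq ?_)
    ring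
  refine (sum_le_sum h1).trans ?_
  rw [← mul_sum, sum_add_distrib, ← mul_sum, ← mul_sum]
  apply mul_le_mul_of_nonneg_left _ (by positivity)
  have h2 := cf_gcd hq hP0 hV
  have h3 := cf_one hq hP0 hV
  calc (N : ℝ) / q * ∑ h ∈ (SS q).erase 0, ‖cf q g h‖ * ((h.natAbs.gcd q : ℕ) : ℝ) + (D + q) * ∑ h ∈ (SS q).erase 0, ‖cf q g h‖
      ≤ (N : ℝ) / q * (JJ q * (4 * √(P * (q * (1 + Real.log q))))) + (D + q) * (JJ q * (4 * √P)) := by
        gcongr
    _ = _ := by ring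

/-- one dyadic block -/
theorem block (hq : 1 ≤ q) (hg : ∀ n, g (n + q) = g n) {ρ T : ℝ}
    (hP0 : 0 ≤ P) (hV : ∀ s : ℕ, ∑ h ∈ Fs q s, ‖cf q g h‖ ^ 2 ≤ 4 * P / 2 ^ s)
    (hρ : ∑ h ∈ SS q, ‖cf q g h‖ ^ 2 ≤ ρ) (hT0 : 0 ≤ T)
    (N N' U : ℕ) (hN : 1 ≤ N) (hNN' : N ≤ N') (hN' : N' ≤ 2 * N) (hU : 1 ≤ U) (hUN : U * U ≤ N)
    (hT : ∀ k : ℕ, 1 ≤ k → k ≤ 8 * q * N' → (k.divisors.card : ℝ) ≤ T) :
    ‖∑ n ∈ Ioc N N', ((ArithmeticFunction.vonMangoldt n : ℝ) : ℂ) * EE q g n‖ ≤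
      8 * (1 + Real.log (4 * N)) ^ 5 * √(RR P ρ T q N U) +
      3 * (1 + Real.log (4 * N)) * (600 * (Nat.log 2 (U * U) + 1 : ℝ) * (1 + Real.log q) *
        (JJ q * (4 * (N / q * √(P * (q * (1 + Real.log q))) + ((U * U : ℕ) + q) * √P)))) := by
  have hρ0 : 0 ≤ ρ := le_trans (sum_nonneg fun _ _ => by positivity) hρ
  have hq0 : (0 : ℝ) < q := by exact_mod_cast hq
  have hlg : 0 ≤ Real.log q := Real.log_nonneg (by exact_mod_cast hq)
  have hlog4N : 0 ≤ Real.log (4 * (N : ℝ)) := Real.log_nonneg (by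
    have : (1 : ℝ) ≤ N := by exact_mod_cast hN
    linarith)
  have hRR0 : 0 ≤ RR P ρ T q N U := by
    unfold RR
    positivity
  have key := vaughan_gen (EE q g) N N' U hN hNN' hN' hU hUN
    (fun m => ∑ h ∈ (SS q).erase 0, ‖cf q g h‖ * KK (2 * N / m) (m * ((h : ℝ) / q))) (√(RR P ρ T q N U))
    (Real.sqrt_nonneg _) (fun m => sum_nonneg fun h _ => mul_nonneg (norm_nonneg _) (KK_nonneg (by positivity) _)) (by
      intro m hm b hb
      rw [mem_Icc] at hm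
      have hm0 : (0 : ℝ) < m := by exact_mod_cast (by omega : 0 < m)
      have e1 : ∑ l ∈ Ioc (N / m) b, EE q g (m * l) = ∑ h ∈ (SS q).erase 0, cf q g h *
          ∑ l ∈ Ioc (N / m) b, ee ((l : ℝ) * (m * ((h : ℝ) / q))) := by
        rw [sum_congr rfl (fun l _ => EE_eq hq hg (m * l)), sum_comm]
        apply sum_congr rfl; intro h _
        rw [mul_sum]
        apply sum_congr rfl; intro l _
        congr 2
        push_cast; ring
      rw [e1]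
      refine (norm_sum_le _ _).trans (sum_le_sum fun h _ => ?_)
      rw [norm_mul]
      apply mul_le_mul_of_nonneg_left _ (norm_nonneg _)
      have e2 : Ioc (N / m) b = Ico (N / m + 1) (b + 1) := by ext x; rw [mem_Ioc, mem_Ico]; omega
      rw [e2]
      rcases le_or_gt (N / m + 1) (b + 1) with h' | h'
      · apply geo_bound _ _ h'
        push_cast
        have h1 : (b : ℝ) ≤ 2 * N / m := by
          have h2 : (b : ℝ) ≤ ((N' / m : ℕ) : ℝ) := by exact_mod_cast hb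
          have h3 : ((N' / m : ℕ) : ℝ) ≤ N' / m := Nat.cast_div_le
          have h4 : (N' : ℝ) / m ≤ 2 * N / m := by
            apply div_le_div_of_nonneg_right _ hm0.le
            exact_mod_cast hN'
          linarith
        have h5 : (0 : ℝ) ≤ ((N / m : ℕ) : ℝ) := Nat.cast_nonneg _
        linarith
      · rw [Ico_eq_empty_of_le h'.le, sum_empty, norm_zero]
        exact KK_nonneg (by positivity) _) (by
      intro a b A₂ B₂ hA0 hB0 M L hM hL hM2 hL2 hML hA hB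
      rw [Real.sq_sqrt hRR0]
      exact typeII_fin hq hg hP0 hV hρ hT0 N N' U hN' hU hT a b A₂ B₂ hA0 hB0 M L hM hL hM2 hL2 hML hA hB)
  refine key.trans ?_
  apply add_le_add le_rfl
  apply mul_le_mul_of_nonneg_left _ (by positivity)
  exact typeI_tot hq hP0 hV N (U * U) hN (Nat.mul_pos hU hU)

end

end Pool.Agent.K3h35.MP
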