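import Mathlib
import Pool.Agent.K3h35.MP.D

/-! From dyadic blocks to all intervals, and from the von Mangoldt function to primes. -/

set_option autoImplicit false

namespace Pool.Agent.K3h35.MP

open Finset
open Pool.Agent.H373R2.T3 (abel_Ioc)

/-- the bound for one block -/
noncomputable def Bd (P ρ T : ℝ) (q X U : ℕ) : ℝ :=
  8 * (1 + Real.log (4 * X)) ^ 5 * √(RR P ρ T q X U) +
      3 * (1 + Real.log (4 * X)) * (600 * (Nat.log 2 (U * U) + 1 : ℝ) * (1 + Real.log q) *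
        (JJ q * (4 * (X / q * √(P * (q * (1 + Real.log q))) + ((U * U : ℕ) + q) * √P))))

lemma RR_mono {P ρ T : ℝ} {q N X U : ℕ} (hq : 1 ≤ q) (hP0 : 0 ≤ P) (hρ0 : 0 ≤ ρ) (hT0 : 0 ≤ T) (hNX : N ≤ X) :
    RR P ρ T q N U ≤ RR P ρ T q X U := by
  unfold RR
  have hlg : 0 ≤ Real.log q := Real.log_nonneg (by exact_mod_cast hq)
  have h1 : (N : ℝ) ≤ X := by exact_mod_cast hNX
  have h2 : √(N : ℝ) ≤ √(X : ℝ) := Real.sqrt_le_sqrt h1
  gcongr

lemma Bd_mono {P ρ T : ℝ} {q N X U : ℕ} (hq : 1 ≤ q) (hP0 : 0 ≤ P) (hρ0 : 0 ≤ ρ) (hT0 : 0 ≤ T) (hN : 1 ≤ N)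
    (hNX : N ≤ X) : Bd P ρ T q N U ≤ Bd P ρ T q X U := by
  unfold Bd
  have hlg : 0 ≤ Real.log q := Real.log_nonneg (by exact_mod_cast hq)
  have h1 : (N : ℝ) ≤ X := by exact_mod_cast hNX
  have hN0 : (1 : ℝ) ≤ N := by exact_mod_cast hN
  have h2 : √(RR P ρ T q N U) ≤ √(RR P ρ T q X U) := Real.sqrt_le_sqrt (RR_mono hq hP0 hρ0 hT0 hNX)
  have h3 : Real.log (4 * (N : ℝ)) ≤ Real.log (4 * (X : ℝ)) := Real.log_le_log (by linarith) (by linarith)
  have h4 : 0 ≤ Real.log (4 * (N : ℝ)) := Real.log_nonneg (by linarith)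
  have h4' : 0 ≤ Real.log (4 * (X : ℝ)) := h4.trans h3
  gcongr

lemma Bd_nonneg {P ρ T : ℝ} {q X U : ℕ} (hq : 1 ≤ q) (hP0 : 0 ≤ P) (hX : 1 ≤ X) : 0 ≤ Bd P ρ T q X U := by
  unfold Bd
  have hlg : 0 ≤ Real.log q := Real.log_nonneg (by exact_mod_cast hq)
  have hX0 : (1 : ℝ) ≤ X := by exact_mod_cast hX
  have h4 : 0 ≤ Real.log (4 * (X : ℝ)) := Real.log_nonneg (by linarith)
  positivity

section
variable {q : ℕ} {g : ℕ → ℝ} {P ρ T : ℝ}

/-- several blocks -/
lemma blocks (hq : 1 ≤ q) (hg : ∀ n, g (n + q) = g n)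
    (hP0 : 0 ≤ P) (hV : ∀ s : ℕ, ∑ h ∈ Fs q s, ‖cf q g h‖ ^ 2 ≤ 4 * P / 2 ^ s)
    (hρ : ∑ h ∈ SS q, ‖cf q g h‖ ^ 2 ≤ ρ) (hT0 : 0 ≤ T)
    (X U : ℕ) (hU : 1 ≤ U)
    (hT : ∀ k : ℕ, 1 ≤ k → k ≤ 8 * q * X → (k.divisors.card : ℝ) ≤ T) (r : ℕ) :
    ∀ N N' : ℕ, U * U ≤ N → N ≤ N' → N' ≤ X → N' ≤ 2 ^ r * N →
    ‖∑ n ∈ Ioc N N', ((ArithmeticFunction.vonMangoldt n : ℝ) : ℂ) * EE q g n‖ ≤ r * Bd P ρ T q X U := by
  have hρ0 : 0 ≤ ρ := le_trans (sum_nonneg fun _ _ => by positivity) hρ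
  induction r with
  | zero =>
    intro N N' _ h1 _ h2
    have : N' = N := by omega
    rw [this]
    simp
  | succ r ih =>
    intro N N' h0 h1 h2 h3
    have hN1 : 1 ≤ N := le_trans (Nat.mul_pos hU hU) h0
    have one : ∀ N₂, N ≤ N₂ → N₂ ≤ 2 * N → N₂ ≤ X →
        ‖∑ n ∈ Ioc N N₂, ((ArithmeticFunction.vonMangoldt n : ℝ) : ℂ) * EE q g n‖ ≤ Bd P ρ T q X U := by
      intro N₂ g1 g2 g3
      have h5 := block (P := P) (ρ := ρ) (T := T) hq hg hP0 hV hρ hT0 N N₂ U hN1 g1 g2 hU h0 (fun k hk1 hk2 => hT k hk1 (hk2.trans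
        (Nat.mul_le_mul_left _ g3)))
      exact h5.trans (Bd_mono hq hP0 hρ0 hT0 hN1 (g1.trans g3))
    have hB0 : 0 ≤ Bd P ρ T q X U := Bd_nonneg hq hP0 (hN1.trans (h1.trans h2))
    rcases Nat.le_total N' (2 * N) with h | h
    · refine (one N' h1 h h2).trans ?_
      push_cast
      have : (0 : ℝ) ≤ r := Nat.cast_nonneg _
      nlinarith
    · have h4 := one (2 * N) (by omega) le_rfl (h.trans h2)
      have h5 := ih (2 * N) N' (by omega) h h2 (by rw [pow_succ] at h3; nlinarith)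
      have e : ∑ n ∈ Ioc N N', ((ArithmeticFunction.vonMangoldt n : ℝ) : ℂ) * EE q g n =
          ∑ n ∈ Ioc N (2 * N), ((ArithmeticFunction.vonMangoldt n : ℝ) : ℂ) * EE q g n +
          ∑ n ∈ Ioc (2 * N) N', ((ArithmeticFunction.vonMangoldt n : ℝ) : ℂ) * EE q g n :=
        (sum_Ioc_consecutive _ (by omega) h).symm
      rw [e]
      refine (norm_add_le _ _).trans ?_
      push_cast
      linarith

/-- all intervals -/
lemma intervals (hq : 1 ≤ q) (hg : ∀ n, g (n + q) = g n)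
    (hP0 : 0 ≤ P) (hV : ∀ s : ℕ, ∑ h ∈ Fs q s, ‖cf q g h‖ ^ 2 ≤ 4 * P / 2 ^ s)
    (hρ : ∑ h ∈ SS q, ‖cf q g h‖ ^ 2 ≤ ρ) (hT0 : 0 ≤ T)
    (X U : ℕ) (hU : 1 ≤ U) (hUX : U * U ≤ X)
    (hT : ∀ k : ℕ, 1 ≤ k → k ≤ 8 * q * X → (k.divisors.card : ℝ) ≤ T) (hE : ∀ n, ‖EE q g n‖ ≤ 2)
    (N N' : ℕ) (hNN' : N ≤ N') (hN' : N' ≤ X) :
    ‖∑ n ∈ Ioc N N', ((ArithmeticFunction.vonMangoldt n : ℝ) : ℂ) * EE q g n‖ ≤
      12 * (U * U : ℕ) + (Nat.log 2 X + 1 : ℝ) * Bd P ρ T q X U := by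
  have hUU : 1 ≤ U * U := Nat.mul_pos hU hU
  have hB0 : 0 ≤ Bd P ρ T q X U := Bd_nonneg hq hP0 (hUU.trans hUX)
  have small : ∀ a c : ℕ, c ≤ U * U →
      ‖∑ n ∈ Ioc a c, ((ArithmeticFunction.vonMangoldt n : ℝ) : ℂ) * EE q g n‖ ≤ 12 * (U * U : ℕ) := by
    intro a c hc
    calc ‖∑ n ∈ Ioc a c, ((ArithmeticFunction.vonMangoldt n : ℝ) : ℂ) * EE q g n‖
        ≤ ∑ n ∈ Ioc a c, ArithmeticFunction.vonMangoldt n * 2 := by
          refine (norm_sum_le _ _).trans (sum_le_sum fun n _ => ?_)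
          rw [norm_mul, Complex.norm_real, Real.norm_of_nonneg ArithmeticFunction.vonMangoldt_nonneg]
          exact mul_le_mul_of_nonneg_left (hE n) ArithmeticFunction.vonMangoldt_nonneg
      _ ≤ ∑ n ∈ Ioc 0 (U * U), ArithmeticFunction.vonMangoldt n * 2 := by
          apply sum_le_sum_of_subset_of_nonneg
          · intro n hn
            rw [mem_Ioc] at hn ⊢
            omega
          · intro n _ _
            have := ArithmeticFunction.vonMangoldt_nonneg (n := n)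
            positivity
      _ = 2 * Chebyshev.psi ((U * U : ℕ) : ℝ) := by
          rw [← sum_mul, Chebyshev.psi, Nat.floor_natCast]; ring
      _ ≤ 2 * ((Real.log 4 + 4) * ((U * U : ℕ) : ℝ)) := by
          apply mul_le_mul_of_nonneg_left _ (by norm_num)
          exact Chebyshev.psi_le_const_mul_self (Nat.cast_nonneg _)
      _ ≤ 12 * (U * U : ℕ) := by
          have h1 : Real.log 4 ≤ 2 := by
            have h1 : Real.log 4 = 2 * Real.log 2 := by
              rw [show (4 : ℝ) = 2 ^ 2 by norm_num, Real.log_pow]; push_cast; ring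
            have := Real.log_two_lt_d9
            linarith
          have h2 : (0 : ℝ) ≤ ((U * U : ℕ) : ℝ) := Nat.cast_nonneg _
          nlinarith
  have large : ∀ a c : ℕ, U * U ≤ a → a ≤ c → c ≤ X →
      ‖∑ n ∈ Ioc a c, ((ArithmeticFunction.vonMangoldt n : ℝ) : ℂ) * EE q g n‖ ≤
        (Nat.log 2 X + 1 : ℝ) * Bd P ρ T q X U := by
    intro a c h1 h2 h3
    have h4 := blocks hq hg hP0 hV hρ hT0 X U hU hT (Nat.log 2 X + 1) a c h1 h2 h3 (by
      have h5 : X < 2 ^ (Nat.log 2 X + 1) := Nat.lt_pow_succ_log_self (by norm_num) _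
      have h6 : 2 ^ (Nat.log 2 X + 1) ≤ 2 ^ (Nat.log 2 X + 1) * a := Nat.le_mul_of_pos_right _ (by omega)
      omega)
    push_cast at h4
    exact h4
  have hl0 : 0 ≤ (Nat.log 2 X + 1 : ℝ) * Bd P ρ T q X U := by positivity
  rcases Nat.le_total N' (U * U) with h | h
  · have := small N N' h
    linarith
  rcases Nat.le_total (U * U) N with h' | h'
  · have := large N N' h' hNN' hN'
    have h2 : (0 : ℝ) ≤ ((U * U : ℕ) : ℝ) := Nat.cast_nonneg _
    linarith
  · have h1 := small N (U * U) le_rfl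
    have h2 := large (U * U) N' le_rfl h hN'
    have e : ∑ n ∈ Ioc N N', ((ArithmeticFunction.vonMangoldt n : ℝ) : ℂ) * EE q g n =
        ∑ n ∈ Ioc N (U * U), ((ArithmeticFunction.vonMangoldt n : ℝ) : ℂ) * EE q g n +
        ∑ n ∈ Ioc (U * U) N', ((ArithmeticFunction.vonMangoldt n : ℝ) : ℂ) * EE q g n :=
      (sum_Ioc_consecutive _ h' h).symm
    rw [e]
    refine (norm_add_le _ _).trans ?_
    linarith

/-- from prime powers with logarithmic weight to primes -/
theorem to_primes {f : ℕ → ℝ} {X : ℕ} {B : ℝ} (hf : ∀ n, |f n| ≤ 1)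
    (hB : ∀ N N' : ℕ, N ≤ N' → N' ≤ X → ‖∑ n ∈ Ioc N N', ((ArithmeticFunction.vonMangoldt n : ℝ) : ℂ) * (f n : ℂ)‖ ≤ B)
    (N N' : ℕ) (hNN' : N ≤ N') (hN' : N' ≤ X) (hX : 1 ≤ X) :
    |∑ p ∈ (Ioc N N').filter Nat.Prime, f p| ≤ 5 * B + 3 * (√X * Real.log X) := by
  have hlog2 : (0.69 : ℝ) < Real.log 2 := by have := Real.log_two_gt_d9; linarith
  have hB0 : 0 ≤ B := le_trans (norm_nonneg _) (hB 0 0 le_rfl (by omega))
  set w : ℕ → ℝ := fun n => 1 / Real.log (max (n : ℝ) 2) with hw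
  have hlp : ∀ n : ℕ, Real.log 2 ≤ Real.log (max (n : ℝ) 2) := fun n =>
    Real.log_le_log (by norm_num) (le_max_right _ _)
  have hw0 : ∀ n, 0 ≤ w n := by
    intro n
    have : 0 < Real.log (max (n : ℝ) 2) := by linarith [hlp n]
    simp only [hw]
    positivity
  have hwle : ∀ n, w n ≤ 1 / Real.log 2 := by
    intro n
    simp only [hw]
    exact one_div_le_one_div_of_le (by linarith) (hlp n)
  have hW : 1 / Real.log 2 ≤ 3 / 2 := by
    rw [div_le_div_iff₀ (by linarith) (by norm_num)]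
    linarith
  -- Abel summation
  have h1 : ‖∑ n ∈ Ioc N N', (w n : ℂ) * (((ArithmeticFunction.vonMangoldt n : ℝ) : ℂ) * (f n : ℂ))‖ ≤ 3 * (1 / Real.log 2) * B := by
    set w' : ℕ → ℝ := fun n => 1 / Real.log 2 - w n with hw'
    have e : ∑ n ∈ Ioc N N', (w n : ℂ) * (((ArithmeticFunction.vonMangoldt n : ℝ) : ℂ) * (f n : ℂ)) =
        ((1 / Real.log 2 : ℝ) : ℂ) * ∑ n ∈ Ioc N N', (((ArithmeticFunction.vonMangoldt n : ℝ) : ℂ) * (f n : ℂ)) -
        ∑ n ∈ Ioc N N', (w' n : ℂ) * (((ArithmeticFunction.vonMangoldt n : ℝ) : ℂ) * (f n : ℂ)) := by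
      rw [mul_sum, ← sum_sub_distrib]
      apply sum_congr rfl
      intro n _
      simp only [hw']
      push_cast
      ring
    rw [e]
    refine (norm_sub_le _ _).trans ?_
    have g1 : ‖((1 / Real.log 2 : ℝ) : ℂ) * ∑ n ∈ Ioc N N', (((ArithmeticFunction.vonMangoldt n : ℝ) : ℂ) * (f n : ℂ))‖ ≤
        (1 / Real.log 2) * B := by
      rw [norm_mul, Complex.norm_real, Real.norm_of_nonneg (by positivity)]
      exact mul_le_mul_of_nonneg_left (hB N N' hNN' hN') (by positivity)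
    have g2 := abel_Ioc N N' hNN' w' (fun n => (((ArithmeticFunction.vonMangoldt n : ℝ) : ℂ) * (f n : ℂ))) B (by
      intro a c hac
      simp only [hw', hw]
      have : 1 / Real.log (max (c : ℝ) 2) ≤ 1 / Real.log (max (a : ℝ) 2) := by
        apply one_div_le_one_div_of_le
        · have := hlp a; linarith
        · apply Real.log_le_log (by positivity)
          apply max_le_max _ le_rfl
          exact_mod_cast hac
      linarith) (fun n => by simp only [hw']; linarith [hwle n]) (by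
      intro b' hb'
      rcases Nat.le_total N b' with h | h
      · exact hB N b' h (hb'.trans hN')
      · rw [Ioc_eq_empty_of_le h, sum_empty, norm_zero]; exact hB0)
    have g3 : w' N' ≤ 1 / Real.log 2 := by
      simp only [hw']
      linarith [hw0 N']
    have g4 : 2 * w' N' * B ≤ 2 * (1 / Real.log 2) * B := by gcongr
    linarith
  -- split into primes and non-primes
  have h2 : ∑ n ∈ Ioc N N', (w n) * (ArithmeticFunction.vonMangoldt n * f n) =
      ∑ p ∈ (Ioc N N').filter Nat.Prime, f p +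
      ∑ n ∈ (Ioc N N').filter (fun n => ¬ n.Prime), (w n) * (ArithmeticFunction.vonMangoldt n * f n) := by
    rw [← sum_filter_add_sum_filter_not (Ioc N N') Nat.Prime]
    congr 1
    apply sum_congr rfl
    intro p hp
    rw [mem_filter] at hp
    have hp2 : 2 ≤ p := hp.2.two_le
    have hp2r : (2 : ℝ) ≤ p := by exact_mod_cast hp2
    simp only [hw]
    rw [ArithmeticFunction.vonMangoldt_apply_prime hp.2, max_eq_left hp2r]
    have : Real.log p ≠ 0 := by
      have := Real.log_le_log (by norm_num) hp2r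
      linarith
    field_simp
  have h3 : |∑ n ∈ (Ioc N N').filter (fun n => ¬ n.Prime), (w n) * (ArithmeticFunction.vonMangoldt n * f n)| ≤
      3 * (√X * Real.log X) := by
    calc |∑ n ∈ (Ioc N N').filter (fun n => ¬ n.Prime), (w n) * (ArithmeticFunction.vonMangoldt n * f n)|
        ≤ ∑ n ∈ (Ioc N N').filter (fun n => ¬ n.Prime), 3 / 2 * ArithmeticFunction.vonMangoldt n := by
          refine (abs_sum_le_sum_abs _ _).trans (sum_le_sum fun n _ => ?_)
          rw [abs_mul, abs_mul, abs_of_nonneg (hw0 n), abs_of_nonneg ArithmeticFunction.vonMangoldt_nonneg]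
          have g1 := ArithmeticFunction.vonMangoldt_nonneg (n := n)
          have g2 := hwle n
          have g3 := hf n
          have g4 := abs_nonneg (f n)
          have g5 := hw0 n
          calc w n * (ArithmeticFunction.vonMangoldt n * |f n|) ≤ 3 / 2 * (ArithmeticFunction.vonMangoldt n * 1) := by
                apply mul_le_mul (g2.trans hW) (mul_le_mul_of_nonneg_left g3 g1) (by positivity) (by norm_num)
            _ = _ := by ring
      _ ≤ ∑ n ∈ (Icc 0 X).filter (fun n => ¬ n.Prime), 3 / 2 * ArithmeticFunction.vonMangoldt n := by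
          apply sum_le_sum_of_subset_of_nonneg
          · intro n hn
            rw [mem_filter, mem_Ioc] at hn
            rw [mem_filter, mem_Icc]
            exact ⟨⟨by omega, by omega⟩, hn.2⟩
          · intro n _ _
            have := ArithmeticFunction.vonMangoldt_nonneg (n := n)
            positivity
      _ = 3 / 2 * (Chebyshev.psi (X : ℝ) - Chebyshev.theta (X : ℝ)) := by
          rw [← mul_sum, Chebyshev.psi_eq_sum_Icc, Chebyshev.theta_eq_sum_Icc, Nat.floor_natCast,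
            ← sum_filter_add_sum_filter_not (Icc 0 X) Nat.Prime (fun n => ArithmeticFunction.vonMangoldt n)]
          have : ∑ x ∈ (Icc 0 X).filter Nat.Prime, ArithmeticFunction.vonMangoldt x =
              ∑ x ∈ (Icc 0 X).filter Nat.Prime, Real.log x := by
            apply sum_congr rfl
            intro p hp
            rw [mem_filter] at hp
            exact ArithmeticFunction.vonMangoldt_apply_prime hp.2
          rw [this]
          ring
      _ ≤ 3 / 2 * (2 * √X * Real.log X) := by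
          apply mul_le_mul_of_nonneg_left _ (by norm_num)
          exact Chebyshev.psi_sub_theta_le (by exact_mod_cast hX)
      _ = _ := by ring
  have h4 : |∑ n ∈ Ioc N N', (w n) * (ArithmeticFunction.vonMangoldt n * f n)| ≤ 3 * (1 / Real.log 2) * B := by
    have e : (((∑ n ∈ Ioc N N', (w n) * (ArithmeticFunction.vonMangoldt n * f n) : ℝ)) : ℂ) =
        ∑ n ∈ Ioc N N', (w n : ℂ) * (((ArithmeticFunction.vonMangoldt n : ℝ) : ℂ) * (f n : ℂ)) := by
      push_cast; rfl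
    rw [← e, Complex.norm_real, Real.norm_eq_abs] at h1
    exact h1
  have h5 : 3 * (1 / Real.log 2) * B ≤ 5 * B := by nlinarith
  have h6 : ∑ p ∈ (Ioc N N').filter Nat.Prime, f p = ∑ n ∈ Ioc N N', (w n) * (ArithmeticFunction.vonMangoldt n * f n) -
      ∑ n ∈ (Ioc N N').filter (fun n => ¬ n.Prime), (w n) * (ArithmeticFunction.vonMangoldt n * f n) := by linarith
  rw [h6]
  refine (abs_sub _ _).trans ?_
  linarith

end

end Pool.Agent.K3h35.MP
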