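import Mathlib
import Pool.Agent.K3h35.MP.E

/-! Digit patterns in the middle; palindromic patterns. -/

set_option autoImplicit false

namespace Pool.Agent.K3h35.MP

open Finset

/-- indicator of: the digits of `n` above `B` (modulo `H`) form a pattern in `I` -/
noncomputable def gI (I : Finset ℕ) (B H n : ℕ) : ℝ := if (n / B) % H ∈ I then 1 else 0

lemma gI_nonneg (I : Finset ℕ) (B H n : ℕ) : 0 ≤ gI I B H n := by
  unfold gI; split_ifs <;> norm_num

lemma gI_le (I : Finset ℕ) (B H n : ℕ) : gI I B H n ≤ 1 := by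
  unfold gI; split_ifs <;> norm_num

lemma gI_sq (I : Finset ℕ) (B H n : ℕ) : gI I B H n ^ 2 = gI I B H n := by
  unfold gI; split_ifs <;> norm_num

section
variable {I : Finset ℕ} {B H : ℕ}

lemma gI_per (hB : 1 ≤ B) (n : ℕ) : gI I B H (n + B * H) = gI I B H n := by
  unfold gI
  rw [Nat.add_mul_div_left _ _ (by omega), Nat.add_mod_right]

lemma gI_sum (hB : 1 ≤ B) (hI : I ⊆ range H) : ∑ n ∈ range (B * H), gI I B H n = B * I.card := by
  classical
  unfold gI
  rw [← sum_filter, sum_const, nsmul_eq_mul, mul_one]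
  have h1 : (range (B * H)).filter (fun n => (n / B) % H ∈ I) = (I ×ˢ range B).image (fun p => B * p.1 + p.2) := by
    ext n
    rw [mem_filter, mem_range, mem_image]
    constructor
    · rintro ⟨h1, h2⟩
      have h3 : n / B < H := Nat.div_lt_of_lt_mul h1
      rw [Nat.mod_eq_of_lt h3] at h2
      refine ⟨(n / B, n % B), ?_, Nat.div_add_mod n B⟩
      rw [mem_product, mem_range]
      exact ⟨h2, Nat.mod_lt _ (by omega)⟩
    · rintro ⟨⟨c, r⟩, hp, rfl⟩
      rw [mem_product, mem_range] at hp
      have hc := mem_range.1 (hI hp.1)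
      have hr : r < B := hp.2
      simp only
      have h4 : (B * c + r) / B = c := by
        rw [Nat.mul_add_div (by omega), Nat.div_eq_of_lt hr, add_zero]
      rw [h4, Nat.mod_eq_of_lt hc]
      refine ⟨?_, hp.1⟩
      calc B * c + r < B * c + B := by omega
        _ = B * (c + 1) := by ring
        _ ≤ B * H := Nat.mul_le_mul_left _ hc
  rw [h1, card_image_of_injOn, card_product, card_range]
  · push_cast; ring
  · rintro ⟨c, r⟩ hp ⟨c', r'⟩ hp' h
    rw [mem_coe, mem_product, mem_range] at hp hp'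
    simp only at hp hp' h
    have e1 : (B * c + r) / B = c := by
      rw [Nat.mul_add_div (by omega), Nat.div_eq_of_lt hp.2, add_zero]
    have e2 : (B * c' + r') / B = c' := by
      rw [Nat.mul_add_div (by omega), Nat.div_eq_of_lt hp'.2, add_zero]
    have e3 : c = c' := by rw [← e1, h, e2]
    subst e3
    simp only [Prod.mk.injEq, true_and]
    omega

lemma per_sum {q : ℕ} {G : ℕ → ℝ} (hG : ∀ n, G (n + q) = G n) (t : ℕ) :
    ∑ n ∈ range q, G (n + t) = ∑ n ∈ range q, G n := by
  have h := periodic_sum (q := q) (G := fun n => (G n : ℂ)) (fun n => by rw [hG]) t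
  exact_mod_cast h

lemma gI_boundary (hB : 1 ≤ B) (hI : I ⊆ range H) (t : ℕ) :
    ∑ n ∈ range (B * H), (gI I B H (n + t) - gI I B H n) ^ 2 ≤ 2 * (I.card : ℝ) * t := by
  classical
  have e1 : ∀ n ∈ range (B * H), (gI I B H (n + t) - gI I B H n) ^ 2 =
      2 * (gI I B H n * (1 - gI I B H (n + t))) + (gI I B H (n + t) - gI I B H n) := by
    intro n _
    have h1 := gI_sq I B H n
    have h2 := gI_sq I B H (n + t)
    nlinarith
  rw [sum_congr rfl e1, sum_add_distrib, sum_sub_distrib, per_sum (gI_per hB) t, sub_self, add_zero, ← mul_sum]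
  have h3 : ∑ n ∈ range (B * H), gI I B H n * (1 - gI I B H (n + t)) ≤ (I.card : ℝ) * t := by
    have h4 : ∀ n ∈ range (B * H), gI I B H n * (1 - gI I B H (n + t)) ≤
        if n ∈ (I ×ˢ range t).image (fun p => B * p.1 + (B - 1 - p.2)) then 1 else 0 := by
      intro n hn
      rw [mem_range] at hn
      have h0 := gI_nonneg I B H n
      have h0' := gI_nonneg I B H (n + t)
      have h1 := gI_le I B H n
      have h1' := gI_le I B H (n + t)
      split_ifs with hc
      · nlinarith
      · by_contra hcon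
        push Not at hcon
        apply hc
        have h5 : gI I B H n ≠ 0 := by
          intro h; rw [h, zero_mul] at hcon; exact lt_irrefl _ hcon
        have h6 : gI I B H (n + t) ≠ 1 := by
          intro h; rw [h, sub_self, mul_zero] at hcon; exact lt_irrefl _ hcon
        have h7 : (n / B) % H ∈ I := by
          by_contra h; exact h5 (by unfold gI; rw [if_neg h])
        have h8 : ¬ ((n + t) / B) % H ∈ I := by
          intro h; exact h6 (by unfold gI; rw [if_pos h])
        have h9 : n / B < H := Nat.div_lt_of_lt_mul hn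
        rw [Nat.mod_eq_of_lt h9] at h7
        have hdm := Nat.div_add_mod n B
        have hr : n % B < B := Nat.mod_lt _ (by omega)
        have h10 : B ≤ n % B + t := by
          by_contra hlt
          push Not at hlt
          apply h8
          have : (n + t) / B = n / B := by
            have e : n + t = B * (n / B) + (n % B + t) := by omega
            rw [e, Nat.mul_add_div (by omega), Nat.div_eq_of_lt hlt, add_zero]
          rw [this, Nat.mod_eq_of_lt h9]
          exact h7
        rw [mem_image]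
        refine ⟨(n / B, B - 1 - n % B), ?_, ?_⟩
        · rw [mem_product, mem_range]
          refine ⟨h7, ?_⟩
          simp only
          omega
        · simp only
          omega
    refine (sum_le_sum h4).trans ?_
    rw [← sum_filter, sum_const, nsmul_eq_mul, mul_one]
    have h5 : ((range (B * H)).filter (fun n => n ∈ (I ×ˢ range t).image (fun p => B * p.1 + (B - 1 - p.2)))).card ≤
        I.card * t := by
      calc _ ≤ ((I ×ˢ range t).image (fun p => B * p.1 + (B - 1 - p.2))).card := by
            apply card_le_card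
            intro n hn
            rw [mem_filter] at hn
            exact hn.2
        _ ≤ (I ×ˢ range t).card := card_image_le
        _ = _ := by rw [card_product, card_range]
    exact_mod_cast h5
  linarith

lemma gI_mean (hB : 1 ≤ B) (hH : 1 ≤ H) (hI : I ⊆ range H) :
    cf (B * H) (gI I B H) 0 = (((I.card : ℝ) / H : ℝ) : ℂ) := by
  unfold cf
  have e1 : ∀ n ∈ range (B * H), ((gI I B H n : ℝ) : ℂ) * Pool.Agent.H807R2.Dav.ee (((0 : ℤ) : ℝ) * (-(n : ℝ) / (B * H : ℕ))) =
      ((gI I B H n : ℝ) : ℂ) := by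
    intro n _
    rw [Int.cast_zero, zero_mul, Pool.Agent.H807R2.Dav.ee_zero, mul_one]
  rw [sum_congr rfl e1, ← Complex.ofReal_sum, gI_sum hB hI]
  have hB0 : (B : ℂ) ≠ 0 := by exact_mod_cast (by omega : B ≠ 0)
  have hH0 : (H : ℂ) ≠ 0 := by exact_mod_cast (by omega : H ≠ 0)
  push_cast
  field_simp

lemma gI_parseval (hB : 1 ≤ B) (hH : 1 ≤ H) (hI : I ⊆ range H) :
    ∑ h ∈ SS (B * H), ‖cf (B * H) (gI I B H) h‖ ^ 2 ≤ (I.card : ℝ) / H := by
  rw [parseval (Nat.mul_pos hB hH) (gI_per hB)]
  have e1 : ∀ n ∈ range (B * H), gI I B H n ^ 2 = gI I B H n := fun n _ => gI_sq I B H n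
  rw [sum_congr rfl e1, gI_sum hB hI]
  have hB0 : (B : ℝ) ≠ 0 := by exact_mod_cast (by omega : B ≠ 0)
  have hH0 : (H : ℝ) ≠ 0 := by exact_mod_cast (by omega : H ≠ 0)
  push_cast
  apply le_of_eq
  field_simp

end

/-- all patterns: primes in intervals -/
theorem patterns {I : Finset ℕ} {B H : ℕ} (hB : 1 ≤ B) (hH : 1 ≤ H) (hI : I ⊆ range H) {T : ℝ} (hT0 : 0 ≤ T)
    (X U : ℕ) (hU : 1 ≤ U) (hUX : U * U ≤ X)
    (hT : ∀ k : ℕ, 1 ≤ k → k ≤ 8 * (B * H) * X → (k.divisors.card : ℝ) ≤ T)
    (N N' : ℕ) (hNN' : N ≤ N') (hN' : N' ≤ X) :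
    |(((Ioc N N').filter (fun p => p.Prime ∧ (p / B) % H ∈ I)).card : ℝ) -
      ((I.card : ℝ) / H) * (((Ioc N N').filter Nat.Prime).card : ℝ)| ≤
      5 * (12 * (U * U : ℕ) + (Nat.log 2 X + 1 : ℝ) * Bd I.card ((I.card : ℝ) / H) T (B * H) X U) +
        3 * (√X * Real.log X) := by
  classical
  have hq : 1 ≤ B * H := Nat.mul_pos hB hH
  have hcard : (I.card : ℝ) ≤ H := by
    have := card_le_card hI
    rw [card_range] at this
    exact_mod_cast this
  have hH0 : (0 : ℝ) < H := by exact_mod_cast hH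
  have hρ1 : (I.card : ℝ) / H ≤ 1 := by rw [div_le_one hH0]; exact hcard
  have hρ0 : 0 ≤ (I.card : ℝ) / H := by positivity
  have hP0 : (0 : ℝ) ≤ I.card := Nat.cast_nonneg _
  have hV : ∀ s : ℕ, ∑ h ∈ Fs (B * H) s, ‖cf (B * H) (gI I B H) h‖ ^ 2 ≤ 4 * (I.card : ℝ) / 2 ^ s :=
    fun s => shell hq (gI_per hB) (fun t _ => gI_boundary hB hI t) hP0 s
  set f : ℕ → ℝ := fun n => gI I B H n - (I.card : ℝ) / H with hf
  have hEf : ∀ n, EE (B * H) (gI I B H) n = ((f n : ℝ) : ℂ) := by
    intro n
    unfold EE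
    rw [gI_mean hB hH hI]
    simp only [hf]
    push_cast
    ring
  have hf1 : ∀ n, |f n| ≤ 1 := by
    intro n
    have h1 := gI_nonneg I B H n
    have h2 := gI_le I B H n
    simp only [hf]
    rw [abs_le]
    constructor <;> linarith
  have hE : ∀ n, ‖EE (B * H) (gI I B H) n‖ ≤ 2 := by
    intro n
    rw [hEf, Complex.norm_real, Real.norm_eq_abs]
    linarith [hf1 n]
  have hInt : ∀ N N' : ℕ, N ≤ N' → N' ≤ X → ‖∑ n ∈ Ioc N N', ((ArithmeticFunction.vonMangoldt n : ℝ) : ℂ) * (f n : ℂ)‖ ≤
      12 * (U * U : ℕ) + (Nat.log 2 X + 1 : ℝ) * Bd I.card ((I.card : ℝ) / H) T (B * H) X U := by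
    intro N N' h1 h2
    have h3 := intervals hq (gI_per hB) hP0 hV (gI_parseval hB hH hI) hT0 X U hU hUX hT hE N N' h1 h2
    simp only [hEf] at h3
    exact h3
  have key := to_primes hf1 hInt N N' hNN' hN' (le_trans (Nat.mul_pos hU hU) hUX)
  have e : ∑ p ∈ (Ioc N N').filter Nat.Prime, f p =
      (((Ioc N N').filter (fun p => p.Prime ∧ (p / B) % H ∈ I)).card : ℝ) -
      ((I.card : ℝ) / H) * (((Ioc N N').filter Nat.Prime).card : ℝ) := by
    simp only [hf]
    rw [sum_sub_distrib, sum_const, nsmul_eq_mul]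
    have : ∑ x ∈ (Ioc N N').filter Nat.Prime, gI I B H x = (((Ioc N N').filter (fun p => p.Prime ∧ (p / B) % H ∈ I)).card : ℝ) := by
      unfold gI
      rw [← sum_filter, sum_const, nsmul_eq_mul, mul_one, filter_filter]
    rw [this]
    ring
  rw [e] at key
  exact key

/-- the palindromic strings of length `K` (leading zeros allowed) as numbers below `b ^ K` -/
def PI (b : ℕ) : ℕ → Finset ℕ
  | 0 => {0}
  | 1 => range b
  | K + 2 => (range b ×ˢ PI b K).image (fun p => p.1 + b * p.2 + b ^ (K + 1) * p.1)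

lemma digit_mid {b d c K t : ℕ} (hb : 1 ≤ b) (hd : d < b) (hc : c < b ^ K) (ht : t < K) :
    (d + b * c + b ^ (K + 1) * d) / b ^ (t + 1) % b = c / b ^ t % b := by
  have e1 : d + b * c + b ^ (K + 1) * d = d + b * (c + b ^ K * d) := by rw [pow_succ]; ring
  rw [e1, pow_succ', ← Nat.div_div_eq_div_mul, Nat.add_mul_div_left _ _ (by omega), Nat.div_eq_of_lt hd, zero_add]
  have e2 : b ^ K * d = b ^ t * (b ^ (K - t) * d) := by rw [← mul_assoc, ← pow_add]; congr 2; omega
  rw [e2, Nat.add_mul_div_left _ _ (by positivity)]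
  have e3 : b ^ (K - t) * d = b * (b ^ (K - t - 1) * d) := by
    rw [← mul_assoc, ← pow_succ']; congr 2; omega
  rw [e3, Nat.add_mul_mod_self_left]

lemma digit_top {b d c K : ℕ} (hd : d < b) (hc : c < b ^ K) :
    (d + b * c + b ^ (K + 1) * d) / b ^ (K + 1) = d := by
  have hb : 1 ≤ b := by omega
  rw [Nat.add_mul_div_left _ _ (by positivity)]
  have : d + b * c < b ^ (K + 1) := by
    calc d + b * c < b + b * c := by omega
      _ = b * (c + 1) := by ring
      _ ≤ b * b ^ K := Nat.mul_le_mul_left _ hc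
      _ = _ := by rw [pow_succ]; ring
  rw [Nat.div_eq_of_lt this, zero_add]

lemma digit_bot {b d c K : ℕ} (hd : d < b) :
    (d + b * c + b ^ (K + 1) * d) % b = d := by
  have e1 : d + b * c + b ^ (K + 1) * d = d + b * (c + b ^ K * d) := by rw [pow_succ]; ring
  rw [e1, Nat.add_mul_mod_self_left, Nat.mod_eq_of_lt hd]

lemma PI_lt {b : ℕ} (hb : 2 ≤ b) : ∀ K : ℕ, ∀ c ∈ PI b K, c < b ^ K
  | 0, c, hc => by simp [PI] at hc; subst hc; simp
  | 1, c, hc => by simp [PI] at hc; simpa using hc
  | K + 2, c, hc => by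
    simp only [PI, mem_image, mem_product, mem_range] at hc
    obtain ⟨⟨d, c'⟩, ⟨hd, hc'⟩, rfl⟩ := hc
    have h1 := PI_lt hb K c' hc'
    simp only at hd ⊢
    calc d + b * c' + b ^ (K + 1) * d < b + b * c' + b ^ (K + 1) * d := by omega
      _ = b * (c' + 1) + b ^ (K + 1) * d := by ring
      _ ≤ b * b ^ K + b ^ (K + 1) * (b - 1) := Nat.add_le_add (Nat.mul_le_mul_left _ h1) (Nat.mul_le_mul_left _ (by omega))
      _ = b ^ (K + 1) * (1 + (b - 1)) := by rw [pow_succ]; ring
      _ = b ^ (K + 2) := by rw [show 1 + (b - 1) = b by omega, pow_succ b (K + 1)]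

lemma PI_iff {b : ℕ} (hb : 2 ≤ b) : ∀ K : ℕ, ∀ c, c < b ^ K →
    (c ∈ PI b K ↔ ∀ t, t < K → c / b ^ t % b = c / b ^ (K - 1 - t) % b)
  | 0, c, hc => by
    simp only [pow_zero, Nat.lt_one_iff] at hc
    subst hc
    simp [PI]
  | 1, c, hc => by
    simp only [PI, mem_range]
    constructor
    · intro _ t ht
      have : t = 0 := by omega
      subst this
      rfl
    · intro _
      simpa using hc
  | K + 2, c, hc => by
    have hb1 : 1 ≤ b := by omega
    set d := c % b with hd
    set c' := (c / b) % b ^ K with hc'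
    have hdb : d < b := Nat.mod_lt _ (by omega)
    have hc'b : c' < b ^ K := Nat.mod_lt _ (by positivity)
    have hdec : c = d + b * c' + b ^ (K + 1) * (c / b ^ (K + 1)) := by
      have h1 := Nat.div_add_mod c b
      have h2 := Nat.div_add_mod (c / b) (b ^ K)
      have h3 : c / b / b ^ K = c / b ^ (K + 1) := by
        rw [Nat.div_div_eq_div_mul, pow_succ']
      rw [h3] at h2
      calc c = b * (c / b) + c % b := h1.symm
        _ = b * (b ^ K * (c / b ^ (K + 1)) + c') + d := by rw [h2]
        _ = _ := by rw [pow_succ]; ring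
    constructor
    · intro h
      simp only [PI, mem_image, mem_product, mem_range] at h
      obtain ⟨⟨e, x⟩, ⟨he, hx⟩, hcx⟩ := h
      simp only at he hx hcx
      have hxb := PI_lt hb K x hx
      have ih := (PI_iff hb K x hxb).1 hx
      intro t ht
      rw [← hcx]
      rcases Nat.eq_zero_or_pos t with h0 | h0
      · subst h0
        have : K + 2 - 1 - 0 = K + 1 := by omega
        rw [this, digit_top he hxb, pow_zero, Nat.div_one, digit_bot he, Nat.mod_eq_of_lt he]
      · rcases Nat.lt_or_ge t (K + 1) with h1 | h1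
        · obtain ⟨s, rfl⟩ : ∃ s, t = s + 1 := ⟨t - 1, by omega⟩
          have e2 : K + 2 - 1 - (s + 1) = (K - 1 - s) + 1 := by omega
          rw [e2, digit_mid hb1 he hxb (by omega), digit_mid hb1 he hxb (by omega)]
          exact ih s (by omega)
        · have : t = K + 1 := by omega
          subst this
          have : K + 2 - 1 - (K + 1) = 0 := by omega
          rw [this, digit_top he hxb, pow_zero, Nat.div_one, digit_bot he, Nat.mod_eq_of_lt he]
    · intro h
      have htop : c / b ^ (K + 1) = d := by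
        have h1 := h 0 (by omega)
        have : K + 2 - 1 - 0 = K + 1 := by omega
        rw [this, pow_zero, Nat.div_one] at h1
        have h2 : c / b ^ (K + 1) < b := by
          rw [Nat.div_lt_iff_lt_mul (by positivity)]
          calc c < b ^ (K + 2) := hc
            _ = _ := by rw [pow_succ b (K + 1)]; ring
        rw [Nat.mod_eq_of_lt h2] at h1
        exact h1.symm
      rw [htop] at hdec
      have hmid : c' ∈ PI b K := by
        rw [PI_iff hb K c' hc'b]
        intro t ht
        have h1 := h (t + 1) (by omega)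
        have e2 : K + 2 - 1 - (t + 1) = (K - 1 - t) + 1 := by omega
        rw [e2] at h1
        rw [hdec, digit_mid hb1 hdb hc'b (by omega), digit_mid hb1 hdb hc'b (by omega)] at h1
        exact h1
      simp only [PI, mem_image, mem_product, mem_range]
      exact ⟨(d, c'), ⟨hdb, hmid⟩, hdec.symm⟩

lemma PI_card {b : ℕ} (hb : 2 ≤ b) : ∀ K : ℕ, (PI b K).card = b ^ ((K + 1) / 2)
  | 0 => by simp [PI]
  | 1 => by simp [PI]
  | K + 2 => by
    simp only [PI]
    rw [card_image_of_injOn, card_product, card_range, PI_card hb K]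
    · rw [show (K + 2 + 1) / 2 = (K + 1) / 2 + 1 by omega, pow_succ]; ring
    · rintro ⟨d, c⟩ hp ⟨d', c'⟩ hp' h
      rw [mem_coe, mem_product, mem_range] at hp hp'
      simp only at hp hp' h
      have hc := PI_lt hb K c hp.2
      have hc' := PI_lt hb K c' hp'.2
      have e1 : d = d' := by
        rw [← digit_bot (b := b) (c := c) (K := K) hp.1, h, digit_bot hp'.1]
      subst e1
      have e2 : b * c = b * c' := by omega
      have e3 : c = c' := Nat.eq_of_mul_eq_mul_left (by omega) e2
      rw [e3]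

lemma PI_sub {b : ℕ} (hb : 2 ≤ b) (K : ℕ) : PI b K ⊆ range (b ^ K) := fun c hc => mem_range.2 (PI_lt hb K c hc)

/-- the digit condition in terms of `PI` -/
lemma pal_iff {b : ℕ} (hb : 2 ≤ b) (j K n : ℕ) :
    (n / b ^ j) % b ^ K ∈ PI b K ↔ ∀ i, j ≤ i → i < j + K → n / b ^ i % b = n / b ^ (2 * j + K - 1 - i) % b := by
  have hlt : (n / b ^ j) % b ^ K < b ^ K := Nat.mod_lt _ (by positivity)
  rw [PI_iff hb K _ hlt]
  have hdig : ∀ t, t < K → (n / b ^ j) % b ^ K / b ^ t % b = n / b ^ (j + t) % b := by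
    intro t ht
    rw [pow_add, ← Nat.div_div_eq_div_mul]
    generalize n / b ^ j = m
    have e : b ^ K = b ^ t * b ^ (K - t) := by rw [← pow_add]; congr 1; omega
    rw [e, Nat.mod_mul_right_div_self]
    have e2 : b ∣ b ^ (K - t) := dvd_pow_self b (by omega)
    exact Nat.mod_mod_of_dvd _ e2
  constructor
  · intro h i hi1 hi2
    have h1 := h (i - j) (by omega)
    rw [hdig _ (by omega), hdig _ (by omega)] at h1
    have e1 : j + (i - j) = i := by omega
    have e2 : j + (K - 1 - (i - j)) = 2 * j + K - 1 - i := by omega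
    rw [e1, e2] at h1
    exact h1
  · intro h t ht
    rw [hdig _ ht, hdig _ (by omega)]
    have h1 := h (j + t) (by omega) (by omega)
    have e2 : 2 * j + K - 1 - (j + t) = j + (K - 1 - t) := by omega
    rw [e2] at h1
    exact h1

end Pool.Agent.K3h35.MP
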