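import Mathlib
import Pool.Agent.K3h35.MP.F
import Pool.Agent.H353R2.Z2

/-! The size of the error terms for palindromic patterns. -/

set_option autoImplicit false

namespace Pool.Agent.K3h35.MP

open Finset Filter

lemma ev_poly (C : ℝ) (m : ℕ) {b : ℝ} (hb : 1 < b) {a : ℝ} (ha : 0 < a) :
    ∀ᶠ k : ℕ in atTop, C * (k : ℝ) ^ m ≤ b ^ (a * k) := by
  have h1 : 1 < b ^ a := Real.one_lt_rpow hb ha
  have h2 := tendsto_pow_const_div_const_pow_of_one_lt m h1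
  have h3 : Tendsto (fun n : ℕ => (|C| + 1) * ((n : ℝ) ^ m / (b ^ a) ^ n)) atTop (nhds ((|C| + 1) * 0)) := h2.const_mul _
  rw [mul_zero] at h3
  filter_upwards [h3.eventually (gt_mem_nhds zero_lt_one)] with k hk
  have h4 : (b ^ a) ^ k = b ^ (a * k) := by
    rw [← Real.rpow_natCast, ← Real.rpow_mul (by linarith)]
  rw [← h4]
  have h5 : 0 < (b ^ a) ^ k := by positivity
  rw [← mul_div_assoc, div_lt_one h5] at hk
  have h6 : C ≤ |C| + 1 := by have := le_abs_self C; linarith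
  calc C * (k : ℝ) ^ m ≤ (|C| + 1) * (k : ℝ) ^ m := by gcongr
    _ ≤ _ := hk.le

lemma nlog_le {n : ℕ} (hn : 1 ≤ n) : (Nat.log 2 n : ℝ) + 1 ≤ 1 + 2 * Real.log n := by
  have h1 : (2 : ℝ) ^ Nat.log 2 n ≤ n := by exact_mod_cast Nat.pow_log_le_self 2 (by omega)
  have h2 := Real.log_le_log (by positivity) h1
  rw [Real.log_pow] at h2
  have h3 := Real.log_two_gt_d9
  have h4 : (0 : ℝ) ≤ Nat.log 2 n := Nat.cast_nonneg _
  nlinarith

/-- the divisor bound -/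
lemma div_ev {b : ℕ} (hb : 2 ≤ b) {ε : ℝ} (hε : 0 < ε) : ∀ᶠ k : ℕ in atTop, ∀ n : ℕ, 1 ≤ n → n ≤ 8 * (b ^ k * b ^ k) →
    (n.divisors.card : ℝ) ≤ (b : ℝ) ^ (ε * k) := by
  have hb1 : (1 : ℝ) < b := by exact_mod_cast (by omega : 1 < b)
  obtain ⟨m, hm⟩ := exists_nat_gt (3 / ε)
  have hm0 : 0 < m := by
    rcases Nat.eq_zero_or_pos m with h | h
    · rw [h, Nat.cast_zero] at hm
      have : 0 < 3 / ε := by positivity
      linarith
    · exact h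
  obtain ⟨K, hK⟩ := H353.divisor_bound m
  have h1 : 3 < m * ε := by rwa [div_lt_iff₀ hε] at hm
  filter_upwards [ev_poly (K * 8) 0 hb1 (show 0 < m * ε - 2 by linarith)] with k hk n hn1 hn2
  rw [pow_zero, mul_one] at hk
  have hb0 : (0 : ℝ) < b := by linarith
  have h2 : ((n.divisors.card : ℝ)) ^ m ≤ ((b : ℝ) ^ (ε * k)) ^ m := by
    have h3 : ((n.divisors.card : ℝ)) ^ m ≤ K * n := by exact_mod_cast hK n (by omega)
    have h4 : (n : ℝ) ≤ 8 * ((b : ℝ) ^ k * (b : ℝ) ^ k) := by exact_mod_cast hn2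
    have h5 : (b : ℝ) ^ k * (b : ℝ) ^ k = (b : ℝ) ^ ((2 : ℝ) * k) := by
      rw [← pow_add, ← Real.rpow_natCast]; congr 1; push_cast; ring
    have h6 : ((b : ℝ) ^ (ε * k)) ^ m = (b : ℝ) ^ ((m * ε - 2) * k) * (b : ℝ) ^ ((2 : ℝ) * k) := by
      rw [← Real.rpow_natCast, ← Real.rpow_mul hb0.le, ← Real.rpow_add hb0]; congr 1; ring
    rw [h6]
    calc ((n.divisors.card : ℝ)) ^ m ≤ K * n := h3
      _ ≤ K * (8 * ((b : ℝ) ^ k * (b : ℝ) ^ k)) := by gcongr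
      _ = (K * 8) * (b : ℝ) ^ ((2 : ℝ) * k) := by rw [h5]; ring
      _ ≤ _ := by gcongr
  exact le_of_pow_le_pow_left₀ (by omega) (by positivity) h2

lemma logs_ev {b : ℕ} (hb : 2 ≤ b) : ∀ᶠ k : ℕ in atTop, ∀ n : ℕ, 1 ≤ n → n ≤ b ^ k * b ^ k →
    1 + Real.log (4 * n) ≤ (k : ℝ) ^ 2 ∧ (Nat.log 2 n : ℝ) + 1 ≤ (k : ℝ) ^ 2 ∧ 1 + Real.log n ≤ (k : ℝ) ^ 2 := by
  filter_upwards [eventually_ge_atTop (4 * b + 10)] with k hk n hn1 hn2
  have hkr : 4 * (b : ℝ) + 10 ≤ k := by exact_mod_cast hk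
  have hb0 : (2 : ℝ) ≤ b := by exact_mod_cast hb
  have hn0 : (1 : ℝ) ≤ n := by exact_mod_cast hn1
  have hlogb : Real.log b ≤ b - 1 := Real.log_le_sub_one_of_pos (by linarith)
  have hlogb0 : 0 ≤ Real.log b := Real.log_nonneg (by linarith)
  have h1 : Real.log n ≤ 2 * k * (b - 1) := by
    have h2 : (n : ℝ) ≤ (b : ℝ) ^ (2 * k) := by
      have : n ≤ b ^ (2 * k) := by rw [two_mul, pow_add]; exact hn2
      exact_mod_cast this
    have h3 := Real.log_le_log (by linarith) h2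
    rw [Real.log_pow] at h3
    push_cast at h3
    refine h3.trans ?_
    gcongr
  have h2 : Real.log (4 * (n : ℝ)) = Real.log 4 + Real.log n := Real.log_mul (by norm_num) (by positivity)
  have h3 : Real.log 4 ≤ 3 := by
    have := Real.log_le_sub_one_of_pos (show (0 : ℝ) < 4 by norm_num)
    linarith
  have h4 := nlog_le hn1
  have h5 : 0 ≤ Real.log n := Real.log_nonneg hn0
  refine ⟨?_, ?_, ?_⟩ <;> nlinarith

/-- the main estimate -/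
theorem main_bound {b : ℕ} (hb : 2 ≤ b) {ε : ℝ} (hε : 0 < ε) :
    ∀ᶠ k : ℕ in atTop, ∀ j : ℕ, (1 / 3 + ε) * k ≤ j → 2 * j ≤ k → ∀ N N' : ℕ, N ≤ N' → N' ≤ b ^ k →
    |(((Ioc N N').filter (fun p => p.Prime ∧ (p / b ^ j) % b ^ (k - 2 * j) ∈ PI b (k - 2 * j))).card : ℝ) -
      (1 / (b : ℝ) ^ ((k - 2 * j) / 2)) * (((Ioc N N').filter Nat.Prime).card : ℝ)| ≤
      (b : ℝ) ^ ((1 - ε / 8) * k) / (b : ℝ) ^ ((k - 2 * j) / 2) := by
  have hb1 : (1 : ℝ) < b := by exact_mod_cast (by omega : 1 < b)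
  have hb0 : (0 : ℝ) < b := by linarith
  filter_upwards [div_ev hb (show 0 < ε / 4 by positivity), logs_ev hb,
    ev_poly (120000 * (b : ℝ) ^ (4 : ℝ)) 16 hb1 (show 0 < ε / 8 by positivity),
    ev_poly 1 1 hb1 (show 0 < ε / 8 by positivity), eventually_ge_atTop 2] with k hdiv hlogs hpoly _ hk2 j hj1 hj2 N N' hNN' hN'
  obtain ⟨K, hK⟩ : ∃ K, K = k - 2 * j := ⟨_, rfl⟩
  rw [← hK]
  have hkK : k = 2 * j + K := by omega
  have hkr : (k : ℝ) = 2 * j + K := by rw [hkK]; push_cast; ring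
  have hk0 : (2 : ℝ) ≤ k := by exact_mod_cast hk2
  obtain ⟨d, hd⟩ : ∃ d, d = ⌊ε * k⌋₊ := ⟨_, rfl⟩
  have hεk : 0 ≤ ε * k := by positivity
  have hd1 : (d : ℝ) ≤ ε * k := by rw [hd]; exact Nat.floor_le hεk
  have hd2 : ε * k < d + 1 := by rw [hd]; exact Nat.lt_floor_add_one _
  -- j ≥ K + 3 d
  have hjK : (K : ℝ) + 3 * d ≤ j := by
    have h1 : 3 * ((1 / 3 + ε) * k) ≤ 3 * j := by linarith
    have h2 : 3 * ((1 / 3 + ε) * k) = k + 3 * (ε * k) := by ring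
    rw [h2] at h1
    nlinarith
  have hjKn : K + 3 * d ≤ j := by exact_mod_cast hjK
  obtain ⟨β, hβ⟩ : ∃ β : ℝ → ℝ, β = fun x => (b : ℝ) ^ x := ⟨_, rfl⟩
  have hβpos : ∀ x, 0 < β x := fun x => by rw [hβ]; exact Real.rpow_pos_of_pos hb0 x
  have hβadd : ∀ x y, β (x + y) = β x * β y := fun x y => by rw [hβ]; exact Real.rpow_add hb0 x y
  have hβmono : ∀ x y, x ≤ y → β x ≤ β y := fun x y h => by
    rw [hβ]; exact Real.rpow_le_rpow_of_exponent_le hb1.le h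
  have hβnat : ∀ n : ℕ, (b : ℝ) ^ n = β n := fun n => by rw [hβ]; exact (Real.rpow_natCast _ _).symm
  have hβsqrt : ∀ x, √(β x) = β (x / 2) := fun x => by
    rw [hβ]
    simp only
    rw [Real.sqrt_eq_rpow, ← Real.rpow_mul hb0.le]; congr 1; ring
  obtain ⟨P, hP⟩ : ∃ P : ℕ, P = (PI b K).card := ⟨_, rfl⟩
  have hPn : P = b ^ ((K + 1) / 2) := by rw [hP]; exact PI_card hb K
  have hPβ : (P : ℝ) ≤ β ((K + 1) / 2) := by
    rw [hPn]
    push_cast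
    rw [hβnat]
    apply hβmono
    have : (((K + 1) / 2 : ℕ) : ℝ) ≤ ((K + 1 : ℕ) : ℝ) / 2 := Nat.cast_div_le
    push_cast at this
    exact this
  have hP0 : (0 : ℝ) ≤ P := Nat.cast_nonneg _
  have hH : (1 : ℕ) ≤ b ^ K := Nat.one_le_pow _ _ (by omega)
  have hB : (1 : ℕ) ≤ b ^ j := Nat.one_le_pow _ _ (by omega)
  -- the density
  have hρeq : (P : ℝ) / ((b ^ K : ℕ) : ℝ) = 1 / (b : ℝ) ^ (K / 2) := by
    rw [hPn]
    push_cast
    rw [div_eq_div_iff (by positivity) (by positivity), one_mul, ← pow_add]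
    congr 1
    omega
  have hKhalf : ((K : ℝ) - 1) / 2 ≤ ((K / 2 : ℕ) : ℝ) ∧ ((K / 2 : ℕ) : ℝ) ≤ (K : ℝ) / 2 := by
    constructor
    · have : K ≤ 2 * (K / 2) + 1 := by omega
      have h2 : (K : ℝ) ≤ 2 * ((K / 2 : ℕ) : ℝ) + 1 := by exact_mod_cast this
      linarith
    · exact Nat.cast_div_le
  have hρβ : 1 / (b : ℝ) ^ (K / 2) ≤ β ((1 - K) / 2) := by
    have : 1 / (b : ℝ) ^ (K / 2) = β (-((K / 2 : ℕ) : ℝ)) := by
      rw [hβnat, hβ]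
      simp only
      rw [Real.rpow_neg hb0.le, one_div]
    rw [this]
    apply hβmono
    linarith [hKhalf.1]
  obtain ⟨ρ, hρ⟩ : ∃ ρ : ℝ, ρ = 1 / (b : ℝ) ^ (K / 2) := ⟨_, rfl⟩
  rw [← hρ] at hρβ hρeq
  have hρ0 : 0 < ρ := by rw [hρ]; positivity
  -- parameters
  obtain ⟨U, hU⟩ : ∃ U : ℕ, U = b ^ (K / 2 + d) := ⟨_, rfl⟩
  have hU1 : 1 ≤ U := by rw [hU]; exact Nat.one_le_pow _ _ (by omega)
  have hUU : U * U ≤ b ^ (j + K) := by
    rw [hU, ← pow_add]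
    exact Nat.pow_le_pow_right (by omega) (by omega)
  obtain ⟨q, hq⟩ : ∃ q : ℕ, q = b ^ j * b ^ K := ⟨_, rfl⟩
  have hqn : q = b ^ (j + K) := by rw [hq, pow_add]
  have hq1 : 1 ≤ q := by rw [hq]; exact Nat.mul_pos hB hH
  have hX1 : 1 ≤ b ^ k := Nat.one_le_pow _ _ (by omega)
  have hqX : q ≤ b ^ k := by rw [hqn]; exact Nat.pow_le_pow_right (by omega) (by omega)
  have hUX : U * U ≤ b ^ k := hUU.trans (by rw [← hqn]; exact hqX)
  have hXX : b ^ k ≤ b ^ k * b ^ k := Nat.le_mul_of_pos_left _ (by omega)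
  obtain ⟨T, hT⟩ : ∃ T : ℝ, T = β ((d + 1) / 4) := ⟨_, rfl⟩
  have hT0 : 0 ≤ T := by rw [hT]; exact (hβpos _).le
  have hTdiv : ∀ n : ℕ, 1 ≤ n → n ≤ 8 * (b ^ j * b ^ K) * b ^ k → (n.divisors.card : ℝ) ≤ T := by
    intro n hn1 hn2
    refine (hdiv n hn1 (hn2.trans ?_)).trans ?_
    · rw [mul_assoc, ← hq]
      exact Nat.mul_le_mul_left _ (Nat.mul_le_mul_right _ hqX)
    · rw [hT]
      have : (b : ℝ) ^ (ε / 4 * (k : ℝ)) = β (ε / 4 * k) := by rw [hβ]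
      rw [this]
      apply hβmono
      linarith
  have key := patterns hB hH (PI_sub hb K) hT0 (b ^ k) U hU1 hUX hTdiv N N' hNN' hN'
  rw [← hP, ← hq, hρeq] at key
  rw [hρ] at key
  refine key.trans ?_
  rw [← hρ]
  -- logarithms
  obtain ⟨Λ, hΛ⟩ : ∃ Λ : ℝ, Λ = (k : ℝ) ^ 2 := ⟨_, rfl⟩
  have hΛ1 : 1 ≤ Λ := by rw [hΛ]; nlinarith
  have l1 : 1 + Real.log (4 * ((b ^ k : ℕ) : ℝ)) ≤ Λ := by rw [hΛ]; exact (hlogs _ hX1 hXX).1
  have l2 : (Nat.log 2 (b ^ k) : ℝ) + 1 ≤ Λ := by rw [hΛ]; exact (hlogs _ hX1 hXX).2.1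
  have l3 : 1 + Real.log q ≤ Λ := by rw [hΛ]; exact (hlogs _ hq1 (hqX.trans hXX)).2.2
  have l4 : (JJ q : ℝ) ≤ Λ := by
    rw [hΛ]; unfold JJ; push_cast; exact (hlogs _ hq1 (hqX.trans hXX)).2.1
  have l5 : (Nat.log 2 (U * U) : ℝ) + 1 ≤ Λ := by rw [hΛ]; exact (hlogs _ (Nat.mul_pos hU1 hU1) (hUX.trans hXX)).2.1
  have l6 : Real.log ((b ^ k : ℕ) : ℝ) ≤ Λ := by
    have := (hlogs _ hX1 hXX).2.2
    rw [hΛ]; linarith
  have l30 : 0 ≤ Real.log q := Real.log_nonneg (by exact_mod_cast hq1)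
  have l10 : 0 ≤ Real.log (4 * ((b ^ k : ℕ) : ℝ)) := Real.log_nonneg (by
    have : (1 : ℝ) ≤ ((b ^ k : ℕ) : ℝ) := by exact_mod_cast hX1
    linarith)
  -- powers
  have hXβ : ((b ^ k : ℕ) : ℝ) = β (2 * j + K) := by push_cast; rw [hβnat, hkr]
  have hqβ : (q : ℝ) = β (j + K) := by rw [hqn]; push_cast; rw [hβnat]; push_cast; rfl
  have hUβ : β ((K - 1) / 2 + d) ≤ (U : ℝ) := by
    rw [hU]; push_cast; rw [hβnat]; apply hβmono; push_cast; linarith [hKhalf.1]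
  have hUUβ : ((U * U : ℕ) : ℝ) ≤ β (j + K) := by
    rw [← hqβ]; exact_mod_cast hUU.trans (le_of_eq hqn.symm)
  -- the main exponent
  obtain ⟨E0, hE0⟩ : ∃ E0 : ℝ, E0 = 2 * j + K / 2 + 2 - 3 * d / 8 := ⟨_, rfl⟩
  have hd0 : (0 : ℝ) ≤ d := Nat.cast_nonneg _
  have hK0 : (0 : ℝ) ≤ K := Nat.cast_nonneg _
  have hj0 : (0 : ℝ) ≤ j := Nat.cast_nonneg _
  have hRR : RR P ρ T q (b ^ k) U ≤ (142 * Λ ^ 2 * β E0) ^ 2 := by
    have s1 : (P : ℝ) * ((b ^ k : ℕ) : ℝ) / q ≤ β (2 * j + 2 - d) := by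
      rw [hXβ, hqβ, div_le_iff₀ (hβpos _)]
      calc (P : ℝ) * β (2 * j + K) ≤ β ((K + 1) / 2) * β (2 * j + K) := by
            apply mul_le_mul_of_nonneg_right hPβ (hβpos _).le
        _ = β ((K + 1) / 2 + (2 * j + K)) := (hβadd _ _).symm
        _ ≤ β (2 * j + 2 - d + (j + K)) := hβmono _ _ (by linarith)
        _ = _ := hβadd _ _
    have s2 : (P : ℝ) * √((b ^ k : ℕ) : ℝ) ≤ β (2 * j + 2 - d) := by
      rw [hXβ, hβsqrt]
      calc (P : ℝ) * β ((2 * j + K) / 2) ≤ β ((K + 1) / 2) * β ((2 * j + K) / 2) := by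
            apply mul_le_mul_of_nonneg_right hPβ (hβpos _).le
        _ = β ((K + 1) / 2 + (2 * j + K) / 2) := (hβadd _ _).symm
        _ ≤ _ := hβmono _ _ (by linarith)
    have s3 : ρ * ((b ^ k : ℕ) : ℝ) / U ≤ β (2 * j + 2 - d) := by
      rw [hXβ]
      have hU0 : (0 : ℝ) < U := by exact_mod_cast hU1
      rw [div_le_iff₀ hU0]
      calc ρ * β (2 * j + K) ≤ β ((1 - K) / 2) * β (2 * j + K) := by
            apply mul_le_mul_of_nonneg_right hρβ (hβpos _).le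
        _ = β ((1 - K) / 2 + (2 * j + K)) := (hβadd _ _).symm
        _ ≤ β (2 * j + 2 - d + ((K - 1) / 2 + d)) := hβmono _ _ (by linarith)
        _ = β (2 * j + 2 - d) * β ((K - 1) / 2 + d) := hβadd _ _
        _ ≤ _ := mul_le_mul_of_nonneg_left hUβ (hβpos _).le
    have s4 : ρ * (q : ℝ) ≤ β (2 * j + 2 - d) := by
      rw [hqβ]
      calc ρ * β (j + K) ≤ β ((1 - K) / 2) * β (j + K) := by
            apply mul_le_mul_of_nonneg_right hρβ (hβpos _).le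
        _ = β ((1 - K) / 2 + (j + K)) := (hβadd _ _).symm
        _ ≤ _ := hβmono _ _ (by linarith)
    unfold RR
    have s5 : (P : ℝ) * ((b ^ k : ℕ) : ℝ) / q + P * √((b ^ k : ℕ) : ℝ) + ρ * ((b ^ k : ℕ) : ℝ) / U + ρ * q ≤
        4 * β (2 * j + 2 - d) := by linarith
    calc 4992 * (1 + Real.log q) * (JJ q : ℝ) ^ 2 * T * ((b ^ k : ℕ) : ℝ) *
          (P * ((b ^ k : ℕ) : ℝ) / q + P * √((b ^ k : ℕ) : ℝ) + ρ * ((b ^ k : ℕ) : ℝ) / U + ρ * q)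
        ≤ 4992 * Λ * Λ ^ 2 * T * β (2 * j + K) * (4 * β (2 * j + 2 - d)) := by
          rw [← hXβ]
          gcongr
      _ = 19968 * Λ ^ 3 * (β ((d + 1) / 4) * β (2 * j + K) * β (2 * j + 2 - d)) := by rw [hT]; ring
      _ = 19968 * Λ ^ 3 * β ((d + 1) / 4 + (2 * j + K) + (2 * j + 2 - d)) := by
          rw [hβadd ((d + 1) / 4 + (2 * j + K)) (2 * j + 2 - d), hβadd ((d + 1) / 4) (2 * j + K)]
      _ ≤ 20164 * Λ ^ 4 * β (E0 + E0) := by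
          have h1 : β ((d + 1) / 4 + (2 * j + K) + (2 * j + 2 - d)) ≤ β (E0 + E0) := hβmono _ _ (by rw [hE0]; linarith)
          have h2 : Λ ^ 3 ≤ Λ ^ 4 := pow_le_pow_right₀ hΛ1 (by norm_num)
          have h3 := hβpos (E0 + E0)
          have h4 : (19968 : ℝ) * Λ ^ 3 ≤ 20164 * Λ ^ 4 := by nlinarith [pow_pos (lt_of_lt_of_le zero_lt_one hΛ1) 4]
          exact mul_le_mul h4 h1 (hβpos _).le (by positivity)
      _ = _ := by rw [hβadd]; ring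
  have hsRR : √(RR P ρ T q (b ^ k) U) ≤ 142 * Λ ^ 2 * β E0 := by
    rw [← Real.sqrt_sq (show 0 ≤ 142 * Λ ^ 2 * β E0 by have := hβpos E0; positivity)]
    exact Real.sqrt_le_sqrt hRR
  have hI1 : ((b ^ k : ℕ) : ℝ) / q * √(P * (q * (1 + Real.log q))) ≤ Λ * β E0 := by
    have h1 : √(P * (q * (1 + Real.log q))) ≤ Λ * β (((K + 1) / 2 + (j + K)) / 2) := by
      rw [← Real.sqrt_sq (show 0 ≤ Λ * β (((K + 1) / 2 + (j + K)) / 2) by
        have := hβpos (((K + 1) / 2 + (j + K)) / 2); positivity)]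
      apply Real.sqrt_le_sqrt
      rw [mul_pow, ← hβsqrt, Real.sq_sqrt (hβpos _).le, hβadd]
      calc (P : ℝ) * (q * (1 + Real.log q)) ≤ β ((K + 1) / 2) * (β (j + K) * Λ) := by
            have g1 : (q : ℝ) * (1 + Real.log q) ≤ β (j + K) * Λ := by
              rw [← hqβ]; exact mul_le_mul_of_nonneg_left l3 (Nat.cast_nonneg _)
            have g2 : 0 ≤ (q : ℝ) * (1 + Real.log q) := mul_nonneg (Nat.cast_nonneg _) (by linarith)
            exact mul_le_mul hPβ g1 g2 (hβpos _).le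
        _ ≤ β ((K + 1) / 2) * (β (j + K) * Λ ^ 2) := by
            have : Λ ≤ Λ ^ 2 := by nlinarith
            have h2 := hβpos ((K + 1) / 2)
            have h3 := hβpos (j + K)
            gcongr
        _ = _ := by ring
    have h2 : ((b ^ k : ℕ) : ℝ) / q = β j := by
      rw [hXβ, hqβ, div_eq_iff (hβpos _).ne', ← hβadd]; congr 1; ring
    rw [h2]
    calc β j * √(P * (q * (1 + Real.log q))) ≤ β j * (Λ * β (((K + 1) / 2 + (j + K)) / 2)) :=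
          mul_le_mul_of_nonneg_left h1 (hβpos _).le
      _ = Λ * β (j + ((K + 1) / 2 + (j + K)) / 2) := by rw [hβadd]; ring
      _ ≤ Λ * β E0 := mul_le_mul_of_nonneg_left (hβmono _ _ (by rw [hE0]; linarith)) (by linarith)
  have hI2 : (((U * U : ℕ) : ℝ) + q) * √P ≤ 2 * β E0 := by
    have h1 : √(P : ℝ) ≤ β ((K + 1) / 2 / 2) := by
      rw [← hβsqrt]; exact Real.sqrt_le_sqrt hPβ
    calc (((U * U : ℕ) : ℝ) + q) * √P ≤ (β (j + K) + β (j + K)) * β ((K + 1) / 2 / 2) := by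
          apply mul_le_mul _ h1 (Real.sqrt_nonneg _) (by have := hβpos (j + K); positivity)
          rw [hqβ]; linarith
      _ = 2 * β (j + K + (K + 1) / 2 / 2) := by rw [hβadd (j + K)]; ring
      _ ≤ _ := mul_le_mul_of_nonneg_left (hβmono _ _ (by rw [hE0]; linarith)) (by norm_num)
  have hβE := hβpos E0
  have hBd : Bd P ρ T q (b ^ k) U ≤ 22736 * Λ ^ 7 * β E0 := by
    unfold Bd
    have h1 : 8 * (1 + Real.log (4 * ((b ^ k : ℕ) : ℝ))) ^ 5 * √(RR P ρ T q (b ^ k) U) ≤ 8 * Λ ^ 5 * (142 * Λ ^ 2 * β E0) := by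
      gcongr
    have h2 : 3 * (1 + Real.log (4 * ((b ^ k : ℕ) : ℝ))) * (600 * (Nat.log 2 (U * U) + 1 : ℝ) * (1 + Real.log q) *
        (JJ q * (4 * (((b ^ k : ℕ) : ℝ) / q * √(P * (q * (1 + Real.log q))) + ((U * U : ℕ) + q) * √P)))) ≤
        3 * Λ * (600 * Λ * Λ * (Λ * (4 * (Λ * β E0 + 2 * β E0)))) := by
      gcongr
    have h3 : 3 * Λ * (600 * Λ * Λ * (Λ * (4 * (Λ * β E0 + 2 * β E0)))) ≤ 21600 * Λ ^ 7 * β E0 := by
      have e : 3 * Λ * (600 * Λ * Λ * (Λ * (4 * (Λ * β E0 + 2 * β E0)))) = 7200 * (Λ ^ 5 + 2 * Λ ^ 4) * β E0 := by ring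
      rw [e]
      have g1 : Λ ^ 5 ≤ Λ ^ 7 := pow_le_pow_right₀ hΛ1 (by norm_num)
      have g2 : Λ ^ 4 ≤ Λ ^ 7 := pow_le_pow_right₀ hΛ1 (by norm_num)
      have g3 : 7200 * (Λ ^ 5 + 2 * Λ ^ 4) ≤ 21600 * Λ ^ 7 := by linarith
      exact mul_le_mul_of_nonneg_right g3 hβE.le
    have h4 : 8 * Λ ^ 5 * (142 * Λ ^ 2 * β E0) = 1136 * Λ ^ 7 * β E0 := by ring
    linarith
  have hBd0 : 0 ≤ Bd P ρ T q (b ^ k) U := Bd_nonneg hq1 hP0 hX1
  have hsX : √((b ^ k : ℕ) : ℝ) ≤ β E0 := by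
    rw [hXβ, hβsqrt]
    exact hβmono _ _ (by rw [hE0]; linarith)
  have hUUE : ((U * U : ℕ) : ℝ) ≤ β E0 := hUUβ.trans (hβmono _ _ (by rw [hE0]; linarith))
  have htot : 5 * (12 * ((U * U : ℕ) : ℝ) + (Nat.log 2 (b ^ k) + 1 : ℝ) * Bd P ρ T q (b ^ k) U) +
        3 * (√((b ^ k : ℕ) : ℝ) * Real.log ((b ^ k : ℕ) : ℝ)) ≤ 120000 * Λ ^ 8 * β E0 := by
    have hl60 : 0 ≤ Real.log ((b ^ k : ℕ) : ℝ) := Real.log_nonneg (by exact_mod_cast hX1)
    calc 5 * (12 * ((U * U : ℕ) : ℝ) + (Nat.log 2 (b ^ k) + 1 : ℝ) * Bd P ρ T q (b ^ k) U) +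
        3 * (√((b ^ k : ℕ) : ℝ) * Real.log ((b ^ k : ℕ) : ℝ))
        ≤ 5 * (12 * β E0 + Λ * (22736 * Λ ^ 7 * β E0)) + 3 * (β E0 * Λ) := by gcongr
      _ = (60 + 113680 * Λ ^ 8 + 3 * Λ) * β E0 := by ring
      _ ≤ (120000 * Λ ^ 8) * β E0 := by
          apply mul_le_mul_of_nonneg_right _ hβE.le
          have g1 : (1 : ℝ) ≤ Λ ^ 8 := one_le_pow₀ hΛ1
          have g2 : Λ ≤ Λ ^ 8 := le_self_pow₀ hΛ1 (by norm_num)
          linarith
  refine htot.trans ?_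
  have hfin : (b : ℝ) ^ ((1 - ε / 8) * (k : ℝ)) / (b : ℝ) ^ (K / 2) = β ((1 - ε / 8) * k - ((K / 2 : ℕ) : ℝ)) := by
    rw [hβnat, hβ]
    simp only
    rw [Real.rpow_sub hb0]
  rw [hfin]
  have hpoly' : 120000 * β 4 * Λ ^ 8 ≤ β (ε / 8 * k) := by
    have : (k : ℝ) ^ 16 = Λ ^ 8 := by rw [hΛ, ← pow_mul]
    rw [this] at hpoly
    rw [hβ]
    exact hpoly
  have e4 : β E0 = β 4 * β (E0 - 4) := by rw [← hβadd]; congr 1; ring
  calc 120000 * Λ ^ 8 * β E0 = (120000 * β 4 * Λ ^ 8) * β (E0 - 4) := by rw [e4]; ring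
    _ ≤ β (ε / 8 * k) * β (E0 - 4) := mul_le_mul_of_nonneg_right hpoly' (hβpos _).le
    _ = β (ε / 8 * k + (E0 - 4)) := (hβadd _ _).symm
    _ ≤ _ := by
        apply hβmono
        rw [hE0]
        have := hKhalf.2
        nlinarith

end Pool.Agent.K3h35.MP
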