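import Mathlib
import Pool.Agent.K3h35.MP.G
import Pool.Agent.H617R3.BT.Sieve
import Pool.Agent.H357R2.SI.Common

/-! Palindromes close to primes. -/

set_option autoImplicit false

namespace Pool.Agent.K3h35.MP

open Finset Filter

lemma digits_ext {b : ℕ} (hb : 2 ≤ b) : ∀ K n n' : ℕ, n < b ^ K → n' < b ^ K →
    (∀ i, i < K → n / b ^ i % b = n' / b ^ i % b) → n = n'
  | 0, n, n', h1, h2, _ => by
    rw [pow_zero] at h1 h2; omega
  | K + 1, n, n', h1, h2, h => by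
    have e : n / b = n' / b := by
      apply digits_ext hb K
      · rw [Nat.div_lt_iff_lt_mul (by omega)]; rwa [pow_succ] at h1
      · rw [Nat.div_lt_iff_lt_mul (by omega)]; rwa [pow_succ] at h2
      · intro i hi
        rw [Nat.div_div_eq_div_mul, Nat.div_div_eq_div_mul, ← pow_succ']
        exact h (i + 1) (by omega)
    have e0 := h 0 (by omega)
    rw [pow_zero, Nat.div_one, Nat.div_one] at e0
    rw [← Nat.div_add_mod n b, ← Nat.div_add_mod n' b, e, e0]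

lemma top_inj {b : ℕ} (hb : 2 ≤ b) (j K : ℕ) {n n' : ℕ} (hn : n ∈ PI b (2 * j + K)) (hn' : n' ∈ PI b (2 * j + K))
    (h : n / b ^ j = n' / b ^ j) : n = n' := by
  have l1 := PI_lt hb _ n hn
  have l2 := PI_lt hb _ n' hn'
  have p1 := (PI_iff hb _ n l1).1 hn
  have p2 := (PI_iff hb _ n' l2).1 hn'
  have hi : ∀ i, j ≤ i → n / b ^ i % b = n' / b ^ i % b := by
    intro i hi
    have e : b ^ i = b ^ j * b ^ (i - j) := by rw [← pow_add]; congr 1; omega
    rw [e, ← Nat.div_div_eq_div_mul, ← Nat.div_div_eq_div_mul, h]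
  apply digits_ext hb _ _ _ l1 l2
  intro i hik
  by_cases hij : j ≤ i
  · exact hi i hij
  · rw [p1 i hik, p2 i hik]
    exact hi _ (by omega)

lemma mid_mem {b : ℕ} (hb : 2 ≤ b) (j K : ℕ) {n : ℕ} (hn : n ∈ PI b (2 * j + K)) :
    (n / b ^ j) % b ^ K ∈ PI b K := by
  rw [pal_iff hb]
  intro i h1 h2
  exact (PI_iff hb _ n (PI_lt hb _ n hn)).1 hn i (by omega)

lemma pair_inj {b : ℕ} (_hb : 2 ≤ b) (K : ℕ) {t t' : ℕ} (h1 : t / b ^ K = t' / b ^ K) (h2 : t % b ^ K = t' % b ^ K) :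
    t = t' := by
  rw [← Nat.div_add_mod t (b ^ K), ← Nat.div_add_mod t' (b ^ K), h1, h2]

lemma top_surj {b : ℕ} (hb : 2 ≤ b) (j K : ℕ) {t : ℕ} (ht : t < b ^ (j + K)) (htK : t % b ^ K ∈ PI b K) :
    ∃ n ∈ PI b (2 * j + K), n / b ^ j = t := by
  have hbp : ∀ m, 0 < b ^ m := fun m => pow_pos (by omega) m
  set T := (range (b ^ (j + K))).filter (fun t => t % b ^ K ∈ PI b K) with hT
  have hmaps : Set.MapsTo (fun n => n / b ^ j) (PI b (2 * j + K)) T := by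
    intro n hn
    rw [mem_coe] at hn ⊢
    rw [hT, mem_filter, mem_range]
    refine ⟨?_, mid_mem hb j K hn⟩
    rw [Nat.div_lt_iff_lt_mul (hbp _), ← pow_add]
    have := PI_lt hb _ n hn
    rwa [show j + K + j = 2 * j + K by ring]
  have hinj : Set.InjOn (fun n => n / b ^ j) (PI b (2 * j + K) : Set ℕ) := by
    intro n hn n' hn' h
    exact top_inj hb j K hn hn' h
  have hcard : T.card ≤ (PI b (2 * j + K)).card := by
    have h1 : T.card ≤ (range (b ^ j) ×ˢ PI b K).card := by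
      apply card_le_card_of_injOn (fun t => (t / b ^ K, t % b ^ K))
      · intro s hs
        rw [mem_coe, hT, mem_filter, mem_range] at hs
        rw [mem_coe, mem_product, mem_range]
        refine ⟨?_, hs.2⟩
        simp only
        rw [Nat.div_lt_iff_lt_mul (hbp _), ← pow_add]
        exact hs.1
      · intro s _ s' _ h
        simp only [Prod.mk.injEq] at h
        exact pair_inj hb K h.1 h.2
    refine h1.trans (le_of_eq ?_)
    rw [card_product, card_range, PI_card hb, PI_card hb, ← pow_add]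
    congr 1; omega
  have hs := Finset.surjOn_of_injOn_of_card_le _ hmaps hinj hcard
  obtain ⟨n, hn, hn2⟩ := hs (show t ∈ (T : Set ℕ) by rw [mem_coe, hT, mem_filter, mem_range]; exact ⟨ht, htK⟩)
  exact ⟨n, hn, hn2⟩

lemma pal_card {b : ℕ} (hb : 2 ≤ b) (j K : ℕ) (hj : 1 ≤ j) :
    ((PI b (2 * j + K)).filter (fun n => b ^ (2 * j + K - 1) ≤ n)).card ≤ (b ^ j - b ^ (j - 1)) * b ^ ((K + 1) / 2) := by
  have hbp : ∀ m, 0 < b ^ m := fun m => pow_pos (by omega) m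
  have h1 : ((PI b (2 * j + K)).filter (fun n => b ^ (2 * j + K - 1) ≤ n)).card ≤
      (Ico (b ^ (j - 1)) (b ^ j) ×ˢ PI b K).card := by
    apply card_le_card_of_injOn (fun n => (n / b ^ j / b ^ K, (n / b ^ j) % b ^ K))
    · intro n hn
      rw [mem_coe, mem_filter] at hn
      rw [mem_coe, mem_product, mem_Ico]
      refine ⟨⟨?_, ?_⟩, mid_mem hb j K hn.1⟩
      · simp only
        rw [Nat.div_div_eq_div_mul, Nat.le_div_iff_mul_le (Nat.mul_pos (hbp _) (hbp _)), ← pow_add, ← pow_add]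
        rw [show j - 1 + (j + K) = 2 * j + K - 1 by omega]
        exact hn.2
      · simp only
        rw [Nat.div_div_eq_div_mul, Nat.div_lt_iff_lt_mul (Nat.mul_pos (hbp _) (hbp _)), ← pow_add, ← pow_add]
        rw [show j + (j + K) = 2 * j + K by ring]
        exact PI_lt hb _ n hn.1
    · intro n hn n' hn' h
      rw [mem_coe, mem_filter] at hn hn'
      simp only [Prod.mk.injEq] at h
      exact top_inj hb j K hn.1 hn'.1 (pair_inj hb K h.1 h.2)
  rw [card_product, Nat.card_Ico, PI_card hb] at h1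
  exact h1

lemma pal_filter {b : ℕ} (hb : 2 ≤ b) (k : ℕ) :
    ((Ico (b ^ (k - 1)) (b ^ k)).filter (fun n => ∀ i, i < k → n / b ^ i % b = n / b ^ (k - 1 - i) % b)) =
      (PI b k).filter (fun n => b ^ (k - 1) ≤ n) := by
  ext n
  rw [mem_filter, mem_filter, mem_Ico]
  constructor
  · rintro ⟨⟨h1, h2⟩, h3⟩
    exact ⟨(PI_iff hb k n h2).2 h3, h1⟩
  · rintro ⟨h1, h2⟩
    have h3 := PI_lt hb k n h1
    exact ⟨⟨h2, h3⟩, (PI_iff hb k n h3).1 h1⟩


/-- primes with a given top part -/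
lemma fiber_primes {δ : ℝ} {N₀ : ℕ}
    (hbt : ∀ a q N : ℕ, 1 ≤ q → N₀ ≤ N →
    (((range N).filter (fun t => (a + t * q).Prime)).card : ℝ) ≤
      (2 + δ) * ((q : ℝ) / Nat.totient q) * N / Real.log N) {B : ℕ} (hB : N₀ ≤ B) (hB1 : 1 ≤ B) (S : Finset ℕ) (t : ℕ) :
    ((S.filter (fun p => p.Prime ∧ p / B = t)).card : ℝ) ≤ (2 + δ) * B / Real.log B := by
  have h1 := hbt (B * t) 1 B le_rfl hB
  rw [Nat.totient_one] at h1
  have h2 : (S.filter (fun p => p.Prime ∧ p / B = t)).card ≤ ((range B).filter (fun s => (B * t + s * 1).Prime)).card := by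
    apply card_le_card_of_injOn (fun p => p % B)
    · intro p hp
      rw [mem_coe, mem_filter] at hp
      rw [mem_coe, mem_filter, mem_range]
      refine ⟨Nat.mod_lt _ (by omega), ?_⟩
      simp only
      rw [mul_one, ← hp.2.2, Nat.div_add_mod]
      exact hp.2.1
    · intro p hp p' hp' h
      rw [mem_coe, mem_filter] at hp hp'
      simp only at h
      rw [← Nat.div_add_mod p B, ← Nat.div_add_mod p' B, h, hp.2.2, hp'.2.2]
  calc ((S.filter (fun p => p.Prime ∧ p / B = t)).card : ℝ)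
      ≤ (((range B).filter (fun s => (B * t + s * 1).Prime)).card : ℝ) := by exact_mod_cast h2
    _ ≤ _ := h1
    _ = _ := by norm_num

/-- primes with `k` digits -/
lemma primes_ev {b : ℕ} (hb : 2 ≤ b) {δ : ℝ} (hδ : 0 < δ) (hδ1 : δ ≤ 1 / 10) : ∀ᶠ k : ℕ in atTop,
    (1 - 5 * δ) * ((b - 1) * (b : ℝ) ^ (k - 1)) / (k * Real.log b) ≤
      (((Ioc (b ^ (k - 1)) (b ^ k)).filter Nat.Prime).card : ℝ) := by
  obtain ⟨X₀, hX3, hX⟩ := Pool.Agent.H357R2.SI.pnt δ hδ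
  have hb0 : (2 : ℝ) ≤ b := by exact_mod_cast hb
  obtain ⟨m, hm⟩ := exists_nat_gt (1 / δ)
  filter_upwards [eventually_ge_atTop (X₀ + 1 + m + 1)] with k hk
  have hk1 : 1 ≤ k - 1 := by omega
  have hlt : ∀ n : ℕ, n < b ^ n := fun n => Nat.lt_pow_self (by omega)
  have a1 := (hX (b ^ k) (le_trans (by omega) (hlt k).le)).1
  have a2 := (hX (b ^ (k - 1)) (le_trans (by omega) (hlt (k - 1)).le)).2
  have a3 := Pool.Agent.H357R2.SI.pc_eq_sub (show b ^ (k - 1) ≤ b ^ k from Nat.pow_le_pow_right (by omega) (by omega))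
  unfold Pool.Agent.H357R2.SI.pc at a3
  rw [a3]
  have hL : 0 < Real.log b := Real.log_pos (by linarith)
  push_cast at a1 a2
  rw [Real.log_pow] at a1 a2
  have hkc : ((k - 1 : ℕ) : ℝ) = k - 1 := by rw [Nat.cast_sub (by omega)]; norm_num
  rw [hkc] at a2
  have hkm : (m : ℝ) + 2 ≤ k := by exact_mod_cast (by omega : m + 2 ≤ k)
  have hkδ : 1 / δ ≤ k - 1 := by linarith
  have hk0 : (0 : ℝ) < k - 1 := by have : 0 < 1 / δ := by positivity
                                   linarith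
  have hP : (0 : ℝ) < (b : ℝ) ^ (k - 1) := by positivity
  have hbk : (b : ℝ) ^ k = b * (b : ℝ) ^ (k - 1) := by rw [← pow_succ']; congr 1; omega
  rw [hbk] at a1
  have hinv : 1 / ((k : ℝ) - 1) ≤ (1 + δ) / k := by
    rw [div_le_div_iff₀ hk0 (by linarith)]
    rw [div_le_iff₀ hδ] at hkδ
    nlinarith
  have a4 : (1 + δ) * (b : ℝ) ^ (k - 1) / ((k - 1) * Real.log b) ≤ (1 + δ) ^ 2 * (b : ℝ) ^ (k - 1) / (k * Real.log b) := by
    calc (1 + δ) * (b : ℝ) ^ (k - 1) / ((k - 1) * Real.log b)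
        = ((1 + δ) * (b : ℝ) ^ (k - 1) / Real.log b) * (1 / ((k : ℝ) - 1)) := by field_simp
      _ ≤ ((1 + δ) * (b : ℝ) ^ (k - 1) / Real.log b) * ((1 + δ) / k) := by
          apply mul_le_mul_of_nonneg_left hinv; positivity
      _ = _ := by field_simp
  have a5 : (1 - 5 * δ) * ((b - 1) * (b : ℝ) ^ (k - 1)) / (k * Real.log b) ≤
      (1 - δ) * (b * (b : ℝ) ^ (k - 1)) / (k * Real.log b) - (1 + δ) ^ 2 * (b : ℝ) ^ (k - 1) / (k * Real.log b) := by
    rw [← sub_div]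
    apply div_le_div_of_nonneg_right _ (by positivity)
    have : (1 - 5 * δ) * ((b : ℝ) - 1) ≤ (1 - δ) * b - (1 + δ) ^ 2 := by nlinarith
    calc (1 - 5 * δ) * ((b - 1) * (b : ℝ) ^ (k - 1)) = ((1 - 5 * δ) * ((b : ℝ) - 1)) * (b : ℝ) ^ (k - 1) := by ring
      _ ≤ ((1 - δ) * b - (1 + δ) ^ 2) * (b : ℝ) ^ (k - 1) := by gcongr
      _ = _ := by ring
  linarith

open Classical in
/-- many palindromes are close to primes -/
theorem near {b : ℕ} (hb : 2 ≤ b) {ε : ℝ} (hε : 0 < ε) :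
    ∀ᶠ k : ℕ in atTop, ∀ j : ℕ, (1 / 3 + ε) * k ≤ j → 2 * j ≤ k →
    ((Ico (b ^ (k - 1)) (b ^ k)).filter (fun n => ∀ i, i < k → n / b ^ i % b = n / b ^ (k - 1 - i) % b)).card ≤
    6 * ((Ico (b ^ (k - 1)) (b ^ k)).filter (fun n => (∀ i, i < k → n / b ^ i % b = n / b ^ (k - 1 - i) % b) ∧
      ∃ p : ℕ, p.Prime ∧ p / b ^ j = n / b ^ j)).card := by
  have hb0 : (2 : ℝ) ≤ b := by exact_mod_cast hb
  have hbp : ∀ m, 0 < b ^ m := fun m => pow_pos (by omega) m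
  obtain ⟨δ, hδdef⟩ : ∃ δ : ℝ, δ = min (ε / 4) (1 / 24) := ⟨_, rfl⟩
  have hδ : 0 < δ := by rw [hδdef]; positivity
  have hδε : 4 * δ ≤ ε := by have := min_le_left (ε / 4) (1 / 24 : ℝ); rw [← hδdef] at this; linarith
  have hδ1 : δ ≤ 1 / 24 := by rw [hδdef]; exact min_le_right _ _
  obtain ⟨N₀, _, hbt⟩ := Pool.Agent.H617R3.BT.bt2 δ hδ
  have hL : 0 < Real.log b := Real.log_pos (by linarith)
  filter_upwards [main_bound hb hε, primes_ev hb hδ (by linarith),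
    ev_poly (b * Real.log b / (δ * (b - 1))) 1 (show (1 : ℝ) < b by linarith) (show 0 < ε / 8 by positivity),
    eventually_ge_atTop (3 * N₀ + 6)] with k hmain hprimes hpoly hk j hj1 hj2
  obtain ⟨K, hK⟩ : ∃ K, K = k - 2 * j := ⟨_, rfl⟩
  have hkK : k = 2 * j + K := by omega
  have hkr : (k : ℝ) = 2 * j + K := by rw [hkK]; push_cast; ring
  have hk0 : 3 * (N₀ : ℝ) + 6 ≤ k := by exact_mod_cast hk
  have hjr : (N₀ : ℝ) + 2 ≤ j := by nlinarith
  have hjN : N₀ + 2 ≤ j := by exact_mod_cast hjr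
  have m1 := hmain j hj1 hj2 (b ^ (k - 1)) (b ^ k) (Nat.pow_le_pow_right (by omega) (by omega)) le_rfl
  rw [← hK] at m1
  set Q := (Ioc (b ^ (k - 1)) (b ^ k)).filter (fun p => p.Prime ∧ (p / b ^ j) % b ^ K ∈ PI b K) with hQ
  set G := (Ico (b ^ (k - 1)) (b ^ k)).filter (fun n => (∀ i, i < k → n / b ^ i % b = n / b ^ (k - 1 - i) % b) ∧
      ∃ p : ℕ, p.Prime ∧ p / b ^ j = n / b ^ j) with hG
  -- covering
  have hcov : Q ⊆ G.biUnion (fun n => (Ioc (b ^ (k - 1)) (b ^ k)).filter (fun p => p.Prime ∧ p / b ^ j = n / b ^ j)) := by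
    intro p hp
    rw [hQ, mem_filter, mem_Ioc] at hp
    obtain ⟨⟨p1, p2⟩, p3, p4⟩ := hp
    have p5 : p < b ^ k := by
      rcases lt_or_eq_of_le p2 with h | h
      · exact h
      · exfalso
        rw [h] at p3
        exact Nat.Prime.not_prime_pow (by omega) p3
    have p6 : p / b ^ j < b ^ (j + K) := by
      rw [Nat.div_lt_iff_lt_mul (hbp _), ← pow_add, show j + K + j = k by omega]
      exact p5
    obtain ⟨n, hn1, hn2⟩ := top_surj hb j K p6 p4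
    rw [← hkK] at hn1
    have hnlt := PI_lt hb k n hn1
    have hnge : b ^ (k - 1) ≤ n := by
      have e : b ^ (k - 1) = b ^ (k - 1 - j) * b ^ j := by rw [← pow_add]; congr 1; omega
      rw [e, ← Nat.le_div_iff_mul_le (hbp _), hn2, Nat.le_div_iff_mul_le (hbp _), ← e]
      exact p1.le
    rw [mem_biUnion]
    refine ⟨n, ?_, ?_⟩
    · rw [hG, mem_filter, mem_Ico]
      exact ⟨⟨hnge, hnlt⟩, (PI_iff hb k n hnlt).1 hn1, p, p3, hn2.symm⟩
    · rw [mem_filter, mem_Ioc]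
      exact ⟨⟨p1, p2⟩, p3, hn2.symm⟩
  have hjlt : j < b ^ j := Nat.lt_pow_self (by omega)
  have hQle : (Q.card : ℝ) ≤ G.card * ((2 + δ) * (b : ℝ) ^ j / (j * Real.log b)) := by
    have h1 : Q.card ≤ ∑ n ∈ G, ((Ioc (b ^ (k - 1)) (b ^ k)).filter (fun p => p.Prime ∧ p / b ^ j = n / b ^ j)).card :=
      (card_le_card hcov).trans card_biUnion_le
    calc (Q.card : ℝ) ≤ ∑ n ∈ G, (((Ioc (b ^ (k - 1)) (b ^ k)).filter (fun p => p.Prime ∧ p / b ^ j = n / b ^ j)).card : ℝ) := by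
          exact_mod_cast h1
      _ ≤ ∑ n ∈ G, (2 + δ) * ((b ^ j : ℕ) : ℝ) / Real.log ((b ^ j : ℕ) : ℝ) := by
          apply sum_le_sum
          intro n _
          exact fiber_primes hbt (by omega) (hbp _) _ _
      _ = _ := by
          rw [sum_const, nsmul_eq_mul]
          push_cast
          rw [Real.log_pow]
  -- lower bound for Q
  have hP : (0 : ℝ) < (b : ℝ) ^ (k - 1) := by positivity
  have hkpos : (0 : ℝ) < k := by linarith [Nat.cast_nonneg (α := ℝ) N₀]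
  have hjpos : (0 : ℝ) < j := by linarith [Nat.cast_nonneg (α := ℝ) N₀]
  have herr : (b : ℝ) ^ ((1 - ε / 8) * (k : ℝ)) ≤ δ * ((b - 1) * (b : ℝ) ^ (k - 1)) / (k * Real.log b) := by
    have e1 : (b : ℝ) ^ ((1 - ε / 8) * (k : ℝ)) * (b : ℝ) ^ (ε / 8 * (k : ℝ)) = b * (b : ℝ) ^ (k - 1) := by
      rw [← Real.rpow_add (by linarith), ← pow_succ', ← Real.rpow_natCast]
      congr 1
      rw [Nat.sub_add_cancel (by omega)]
      ring
    rw [pow_one] at hpoly
    have hb1 : 0 < δ * ((b : ℝ) - 1) := mul_pos hδ (by linarith)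
    have hbm : (b : ℝ) - 1 ≠ 0 := by
      have : 0 < (b : ℝ) - 1 := by linarith
      exact this.ne'
    rw [le_div_iff₀ (by positivity)]
    have e2 : b * Real.log b * k ≤ δ * (b - 1) * (b : ℝ) ^ (ε / 8 * (k : ℝ)) := by
      have := mul_le_mul_of_nonneg_left hpoly hb1.le
      calc b * Real.log b * k = δ * (b - 1) * (b * Real.log b / (δ * (b - 1)) * k) := by
            field_simp
        _ ≤ _ := this
    have hpos : 0 < (b : ℝ) ^ ((1 - ε / 8) * (k : ℝ)) := Real.rpow_pos_of_pos (by linarith) _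
    have e3 := mul_le_mul_of_nonneg_left e2 hpos.le
    have e4 : (b : ℝ) ^ ((1 - ε / 8) * (k : ℝ)) * (δ * (b - 1) * (b : ℝ) ^ (ε / 8 * (k : ℝ))) =
        δ * (b - 1) * (b * (b : ℝ) ^ (k - 1)) := by rw [← e1]; ring
    rw [e4] at e3
    have e5 : b * ((b : ℝ) ^ ((1 - ε / 8) * (k : ℝ)) * (k * Real.log b)) ≤ b * (δ * ((b - 1) * (b : ℝ) ^ (k - 1))) := by
      calc _ = (b : ℝ) ^ ((1 - ε / 8) * (k : ℝ)) * (b * Real.log b * k) := by ring
        _ ≤ _ := e3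
        _ = _ := by ring
    exact le_of_mul_le_mul_left e5 (by linarith)
  have hρ : (0 : ℝ) < (b : ℝ) ^ (K / 2) := by positivity
  have hQge : (1 - 6 * δ) * ((b - 1) * (b : ℝ) ^ (k - 1)) / (k * Real.log b) ≤ (b : ℝ) ^ (K / 2) * Q.card := by
    have h1 := (abs_le.1 m1).1
    have h2 : (b : ℝ) ^ (K / 2) * (-((b : ℝ) ^ ((1 - ε / 8) * (k : ℝ)) / (b : ℝ) ^ (K / 2))) ≤ (b : ℝ) ^ (K / 2) *
      ((Q.card : ℝ) - 1 / (b : ℝ) ^ (K / 2) * (((Ioc (b ^ (k - 1)) (b ^ k)).filter Nat.Prime).card : ℝ)) :=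
      mul_le_mul_of_nonneg_left h1 hρ.le
    have h3 : (b : ℝ) ^ (K / 2) * (-((b : ℝ) ^ ((1 - ε / 8) * (k : ℝ)) / (b : ℝ) ^ (K / 2))) =
        -(b : ℝ) ^ ((1 - ε / 8) * (k : ℝ)) := by field_simp
    have h4 : (b : ℝ) ^ (K / 2) *
      ((Q.card : ℝ) - 1 / (b : ℝ) ^ (K / 2) * (((Ioc (b ^ (k - 1)) (b ^ k)).filter Nat.Prime).card : ℝ)) =
      (b : ℝ) ^ (K / 2) * Q.card - (((Ioc (b ^ (k - 1)) (b ^ k)).filter Nat.Prime).card : ℝ) := by field_simp
    rw [h3, h4] at h2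
    have h5 : (1 - 6 * δ) * ((b - 1) * (b : ℝ) ^ (k - 1)) / (k * Real.log b) =
        (1 - 5 * δ) * ((b - 1) * (b : ℝ) ^ (k - 1)) / (k * Real.log b) - δ * ((b - 1) * (b : ℝ) ^ (k - 1)) / (k * Real.log b) := by
      rw [← sub_div]; congr 1; ring
    rw [h5]
    linarith
  -- combine
  have hpalc : (((Ico (b ^ (k - 1)) (b ^ k)).filter (fun n => ∀ i, i < k → n / b ^ i % b = n / b ^ (k - 1 - i) % b)).card : ℝ) *
      ((b : ℝ) ^ (K / 2) * (b : ℝ) ^ j) ≤ (b - 1) * (b : ℝ) ^ (k - 1) := by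
    rw [pal_filter hb k]
    have h1 := pal_card hb j K (by omega)
    rw [← hkK] at h1
    have h2 : b ^ j - b ^ (j - 1) = (b - 1) * b ^ (j - 1) := by
      rw [Nat.sub_mul, one_mul, ← pow_succ', Nat.sub_add_cancel (by omega : 1 ≤ j)]
    rw [h2] at h1
    have h3 : (((PI b k).filter (fun n => b ^ (k - 1) ≤ n)).card : ℝ) ≤ (b - 1) * (b : ℝ) ^ (j - 1) * (b : ℝ) ^ ((K + 1) / 2) := by
      have : (((PI b k).filter (fun n => b ^ (k - 1) ≤ n)).card : ℝ) ≤ (((b - 1) * b ^ (j - 1) * b ^ ((K + 1) / 2) : ℕ) : ℝ) := by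
        exact_mod_cast h1
      rw [Nat.cast_mul, Nat.cast_mul, Nat.cast_sub (by omega), Nat.cast_one, Nat.cast_pow, Nat.cast_pow] at this
      exact this
    calc _ ≤ (b - 1) * (b : ℝ) ^ (j - 1) * (b : ℝ) ^ ((K + 1) / 2) * ((b : ℝ) ^ (K / 2) * (b : ℝ) ^ j) := by gcongr
      _ = (b - 1) * ((b : ℝ) ^ (j - 1) * (b : ℝ) ^ ((K + 1) / 2) * (b : ℝ) ^ (K / 2) * (b : ℝ) ^ j) := by ring
      _ = _ := by
          rw [← pow_add, ← pow_add, ← pow_add]
          congr 2; omega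
  have hGQ : (1 - 6 * δ) * ((b - 1) * (b : ℝ) ^ (k - 1)) / (k * Real.log b) ≤
      (b : ℝ) ^ (K / 2) * (G.card * ((2 + δ) * (b : ℝ) ^ j / (j * Real.log b))) :=
    hQge.trans (mul_le_mul_of_nonneg_left hQle hρ.le)
  have hGQ2 : (1 - 6 * δ) * j * ((b - 1) * (b : ℝ) ^ (k - 1)) ≤ (2 + δ) * k * (G.card * ((b : ℝ) ^ (K / 2) * (b : ℝ) ^ j)) := by
    have := mul_le_mul_of_nonneg_right hGQ (mul_nonneg (mul_nonneg hkpos.le hL.le) hjpos.le : 0 ≤ (k * Real.log b) * j)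
    have e1 : (1 - 6 * δ) * ((b - 1) * (b : ℝ) ^ (k - 1)) / (k * Real.log b) * ((k * Real.log b) * j) =
        (1 - 6 * δ) * j * ((b - 1) * (b : ℝ) ^ (k - 1)) := by field_simp
    have e2 : (b : ℝ) ^ (K / 2) * (G.card * ((2 + δ) * (b : ℝ) ^ j / (j * Real.log b))) * ((k * Real.log b) * j) =
        (2 + δ) * k * (G.card * ((b : ℝ) ^ (K / 2) * (b : ℝ) ^ j)) := by
      generalize (G.card : ℝ) = g
      field_simp
    rw [e1, e2] at this
    exact this
  have hε6 : ε ≤ 1 / 6 := by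
    have : (1 / 3 + ε) * k ≤ (1 / 2) * k := by
      have : 2 * (j : ℝ) ≤ k := by exact_mod_cast hj2
      linarith
    have := le_of_mul_le_mul_right this hkpos
    linarith
  have hcoef : (2 + δ) * (k : ℝ) ≤ 6 * ((1 - 6 * δ) * j) := by
    have h1 : 6 * ((1 - 6 * δ) * ((1 / 3 + ε) * k)) ≤ 6 * ((1 - 6 * δ) * j) := by
      have : 0 ≤ 1 - 6 * δ := by linarith
      gcongr
    have h2 : (2 + δ) * (k : ℝ) ≤ 6 * ((1 - 6 * δ) * ((1 / 3 + ε) * k)) := by
      have : (2 + δ) ≤ 6 * ((1 - 6 * δ) * (1 / 3 + ε)) := by nlinarith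
      nlinarith
    linarith
  set Z := (b : ℝ) ^ (K / 2) * (b : ℝ) ^ j with hZ
  have hZ0 : 0 < Z := by positivity
  have hfinal : (((Ico (b ^ (k - 1)) (b ^ k)).filter (fun n => ∀ i, i < k → n / b ^ i % b = n / b ^ (k - 1 - i) % b)).card : ℝ) ≤
      6 * G.card := by
    set Pc := (((Ico (b ^ (k - 1)) (b ^ k)).filter (fun n => ∀ i, i < k → n / b ^ i % b = n / b ^ (k - 1 - i) % b)).card : ℝ)
    have hcj : 0 < (1 - 6 * δ) * (j : ℝ) := mul_pos (by linarith) hjpos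
    have s1 : (1 - 6 * δ) * j * (Pc * Z) ≤ (2 + δ) * k * (G.card * Z) :=
      (mul_le_mul_of_nonneg_left hpalc hcj.le).trans hGQ2
    have s2 : (2 + δ) * k * (G.card * Z) ≤ 6 * ((1 - 6 * δ) * j) * (G.card * Z) := by
      exact mul_le_mul_of_nonneg_right hcoef (mul_nonneg (Nat.cast_nonneg _) hZ0.le)
    have s3 : ((1 - 6 * δ) * j * Z) * Pc ≤ ((1 - 6 * δ) * j * Z) * (6 * G.card) := by
      calc _ = (1 - 6 * δ) * j * (Pc * Z) := by ring
        _ ≤ _ := s1.trans s2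
        _ = _ := by ring
    exact le_of_mul_le_mul_left s3 (mul_pos hcj hZ0)
  exact_mod_cast hfinal

end Pool.Agent.K3h35.MP
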